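import Pool.Agent.MP_750bb3_lc.J.Defs
import Pool.Agent.Mg.F750bb3.G53feb3

/-! Closure rules for predicates that are enumeration reducible to an oracle. -/

set_option autoImplicit false

namespace Pool.Agent.MP_750bb3_lc.J

open MP750S (Ball Bex Lall lset)
open Nat.Partrec (Code)
open Encodable

/-- The predicate `p a i` is enumeration reducible to `Z i`, uniformly in `a` and `i`. -/
def EF {α ι : Type} [Primcodable α] (Z : ι → Set ℕ) (p : α → ι → Prop) : Prop :=
  ∃ R : α × List ℕ → Prop, REPred R ∧ ∀ a i, p a i ↔ ∃ D : List ℕ, (∀ y ∈ D, y ∈ Z i) ∧ R (a, D)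

section ef
variable {α β ι : Type} [Primcodable α] [Primcodable β] {Z : ι → Set ℕ} {p q : α → ι → Prop}

theorem EF.of_iff (h : EF Z p) (e : ∀ a i, q a i ↔ p a i) : EF Z q := by
  obtain ⟨R, hR, h⟩ := h
  exact ⟨R, hR, fun a i => (e a i).trans (h a i)⟩

theorem ef_re {P : α → Prop} (h : REPred P) : EF Z fun a _ => P a :=
  ⟨fun z => P z.1, by fun_prop, fun _ _ => ⟨fun h => ⟨[], by simp, h⟩, fun ⟨_, _, h⟩ => h⟩⟩

theorem ef_mem {f : α → ℕ} (hf : Computable f) : EF Z fun a i => f a ∈ Z i :=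
  ⟨fun z => f z.1 ∈ z.2, by fun_prop, fun a _ =>
    ⟨fun h => ⟨[f a], by simpa using h, by simp⟩, fun ⟨_, h1, h2⟩ => h1 _ h2⟩⟩

theorem ef_comp {p : β → ι → Prop} {g : α → β} (h : EF Z p) (hg : Computable g) :
    EF Z fun a i => p (g a) i := by
  obtain ⟨R, hR, h⟩ := h
  exact ⟨fun z => R (g z.1, z.2), by fun_prop, fun a i => h (g a) i⟩

theorem ef_or (hp : EF Z p) (hq : EF Z q) : EF Z fun a i => p a i ∨ q a i := by
  obtain ⟨R, hR, h⟩ := hp
  obtain ⟨R', hR', h'⟩ := hq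
  refine ⟨fun z => R z ∨ R' z, by fun_prop, fun a i => ?_⟩
  simp only [h, h', and_or_left, exists_or]

theorem ef_and (hp : EF Z p) (hq : EF Z q) : EF Z fun a i => p a i ∧ q a i := by
  obtain ⟨R, hR, h⟩ := hp
  obtain ⟨R', hR', h'⟩ := hq
  refine ⟨fun z => ∃ w : List ℕ × List ℕ, z.2 = w.1 ++ w.2 ∧ R (z.1, w.1) ∧ R' (z.1, w.2),
    by fun_prop, fun a i => ?_⟩
  simp only [h, h']
  constructor
  · rintro ⟨⟨D, h1, h2⟩, D', h3, h4⟩
    exact ⟨D ++ D', fun y hy => (List.mem_append.1 hy).elim (h1 y) (h3 y), (D, D'), rfl, h2, h4⟩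
  · rintro ⟨_, h1, ⟨D, D'⟩, rfl, h2, h4⟩
    exact ⟨⟨D, fun y hy => h1 y (List.mem_append_left _ hy), h2⟩,
      D', fun y hy => h1 y (List.mem_append_right _ hy), h4⟩

theorem ef_imp {P : α → Prop} (hP : ComputablePred P) (hq : EF Z q) :
    EF Z fun a i => P a → q a i :=
  (ef_or (ef_re hP.not.to_re) hq).of_iff fun _ _ => imp_iff_not_or

theorem ef_ex {p : α → β → ι → Prop} (h : EF Z fun (z : α × β) i => p z.1 z.2 i) :
    EF Z fun a i => ∃ b, p a b i := by
  obtain ⟨R, hR, h⟩ := h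
  refine ⟨fun z => ∃ b, R ((z.1, b), z.2), by fun_prop, fun a i => ?_⟩
  constructor
  · rintro ⟨b, hb⟩
    obtain ⟨D, h1, h2⟩ := (h (a, b) i).1 hb
    exact ⟨D, h1, b, h2⟩
  · rintro ⟨D, h1, b, h2⟩
    exact ⟨b, (h (a, b) i).2 ⟨D, h1, h2⟩⟩

theorem gather {γ : Type} {S : Set ℕ} {R : γ → List ℕ → Prop} (l : List γ)
    (h : ∀ b ∈ l, ∃ D : List ℕ, (∀ y ∈ D, y ∈ S) ∧ R b D) :
    ∃ E : List ℕ, (∀ y ∈ E, y ∈ S) ∧ ∀ b ∈ l, ∃ D : List ℕ, (∀ y ∈ D, y ∈ E) ∧ R b D := by
  induction l with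
  | nil => exact ⟨[], by simp, by simp⟩
  | cons b l ih =>
    obtain ⟨E, h1, h2⟩ := ih fun c hc => h c (List.mem_cons_of_mem _ hc)
    obtain ⟨D, h3, h4⟩ := h b List.mem_cons_self
    refine ⟨D ++ E, fun y hy => (List.mem_append.1 hy).elim (h3 y) (h1 y), fun c hc => ?_⟩
    rcases List.mem_cons.1 hc with rfl | hc
    · exact ⟨D, fun y hy => List.mem_append_left _ hy, h4⟩
    · obtain ⟨D', h5, h6⟩ := h2 c hc
      exact ⟨D', fun y hy => List.mem_append_right _ (h5 y hy), h6⟩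

theorem ef_lall {l : α → List ℕ} {p : α → ℕ → ι → Prop} (hl : Computable l)
    (h : EF Z fun (z : α × ℕ) i => p z.1 z.2 i) : EF Z fun a i => Lall (l a) fun b => p a b i := by
  obtain ⟨R, hR, h⟩ := h
  refine ⟨fun z => Lall (l z.1) fun b => ∃ D : List ℕ, (Lall D fun y => y ∈ z.2) ∧
    R ((z.1, b), D), by fun_prop, fun a i => ⟨fun hb => ?_, ?_⟩⟩
  · exact gather (R := fun b D => R ((a, b), D)) (l a) fun b hb' => (h (a, b) i).1 (hb b hb')
  · rintro ⟨E, h1, h2⟩ b hb
    obtain ⟨D, h3, h4⟩ := h2 b hb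
    exact (h (a, b) i).2 ⟨D, fun y hy => h1 y (h3 y hy), h4⟩

theorem ef_ball {n : α → ℕ} {p : α → ℕ → ι → Prop} (hn : Computable n)
    (h : EF Z fun (z : α × ℕ) i => p z.1 z.2 i) : EF Z fun a i => Ball (n a) fun b => p a b i :=
  (ef_lall (l := fun a => List.range (n a)) (by fun_prop) h).of_iff fun _ _ => by
    simp [Ball, Lall]

theorem ef_bex {n : α → ℕ} {p : α → ℕ → ι → Prop} (hn : Computable n)
    (h : EF Z fun (z : α × ℕ) i => p z.1 z.2 i) : EF Z fun a i => Bex (n a) fun b => p a b i :=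
  ef_ex (p := fun a b i => b < n a ∧ p a b i) (ef_and (ef_re (by fun_prop)) h)

end ef

/-- The rules of operator number `e`. -/
def Wd (e x : ℕ) (D : List ℕ) : Prop := ((Denumerable.ofNat Code e).eval (encode (x, D))).Dom

@[fun_prop] theorem r_Wd {α : Type} [Primcodable α] {e x : α → ℕ} {D : α → List ℕ}
    (he : Computable e) (hx : Computable x) (hD : Computable D) :
    REPred fun a => Wd (e a) (x a) (D a) :=
  (Code.eval_part.comp (g := fun a => Denumerable.ofNat Code (e a))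
    (h := fun a => encode (x a, D a)) (by fun_prop) (by fun_prop)).dom_re

theorem ef_op {α ι : Type} [Primcodable α] {Z : ι → Set ℕ} {Y : α → ι → Set ℕ} {e x : α → ℕ}
    (he : Computable e) (hx : Computable x) (h : EF Z fun (z : α × ℕ) i => z.2 ∈ Y z.1 i) :
    EF Z fun a i => x a ∈ op (e a) (Y a i) :=
  ef_ex (p := fun a D i => (Lall D fun y => y ∈ Y a i) ∧ Wd (e a) (x a) D)
    (ef_and (ef_lall (p := fun (z : α × List ℕ) y i => y ∈ Y z.1 i) (by fun_prop)
      (ef_comp (g := fun z : (α × List ℕ) × ℕ => (z.1.1, z.2)) h (by fun_prop)))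
      (ef_re (by fun_prop)))

theorem op_mono {e : ℕ} {A B : Set ℕ} (h : A ⊆ B) : op e A ⊆ op e B :=
  fun _ ⟨D, h1, h2⟩ => ⟨D, fun y hy => h (h1 y hy), h2⟩

theorem Red.index {Y Z : Set ℕ} (h : Red Y Z) : ∃ e, Y = op e Z := by
  obtain ⟨W, hW, h⟩ := h
  obtain ⟨c, hc⟩ := Code.exists_code.1 hW
  refine ⟨encode c, Set.ext fun x => (h x).trans (exists_congr fun D => and_congr_right fun _ => ?_)⟩
  rw [Denumerable.ofNat_encode, hc]
  simp [Part.assert]

/-- Recursion theorem for enumeration operators. -/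
theorem fixpt {Φ : ℕ → Set ℕ × Set ℕ → Prop} (h : EF (fun i => join i.1 i.2) Φ) (A : Set ℕ) :
    ∃ e, ∀ y, y ∈ op e A ↔ Φ y (A, op e A) := by
  obtain ⟨R, hR, h⟩ := h
  have h1 : REPred fun z : Code × ℕ × List ℕ => ∃ G : List ℕ, R (z.2.1, G) ∧ Lall G fun g =>
      (g % 2 = 0 ∧ g / 2 ∈ z.2.2) ∨ (g % 2 = 1 ∧ ∃ D : List ℕ, (Lall D fun y => y ∈ z.2.2) ∧
        Wd (encode z.1) (g / 2) D) := by fun_prop
  have h2 := MP750S.r_comp (g := fun z : Code × ℕ => (z.1, Denumerable.ofNat (ℕ × List ℕ) z.2))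
    h1 (by fun_prop)
  obtain ⟨c, hc⟩ := Code.fixed_point₂ (f := fun c n => (Part.assert _ fun _ => Part.some ()).map
    fun _ => 0) (Partrec.map h2 (Computable.const 0).to₂).to₂
  have h3 : ∀ y D, Wd (encode c) y D ↔ ∃ G : List ℕ, R (y, G) ∧
      ∀ g ∈ G, g ∈ join (lset D) (op (encode c) (lset D)) := fun y D => by
    rw [Wd, Denumerable.ofNat_encode, hc]
    simp only [Part.map_Dom, Part.assert, Part.some_dom, exists_prop, and_true]
    rw [Denumerable.ofNat_encode]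
    rfl
  refine ⟨encode c, fun y => ?_⟩
  rw [h]
  constructor
  · rintro ⟨D, h4, h5⟩
    obtain ⟨G, h6, h7⟩ := (h3 y D).1 h5
    exact ⟨G, fun g hg => (h7 g hg).imp (And.imp_right (h4 _))
      (And.imp_right fun h => op_mono h4 h), h6⟩
  · rintro ⟨G, h4, h5⟩
    obtain ⟨E, h6, h7⟩ := gather (S := A) (R := fun g D => g ∈ join (lset D)
      (op (encode c) (lset D))) G fun g hg => by
        rcases h4 g hg with ⟨a, b⟩ | ⟨a, D, b, d⟩
        · exact ⟨[g / 2], by simpa using b, Or.inl ⟨a, List.mem_singleton_self _⟩⟩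
        · exact ⟨D, b, Or.inr ⟨a, D, fun _ h => h, d⟩⟩
    refine ⟨E, h6, (h3 y E).2 ⟨G, h5, fun g hg => ?_⟩⟩
    obtain ⟨D, h8, h9⟩ := h7 g hg
    exact h9.imp (And.imp_right (h8 _)) (And.imp_right fun h => op_mono h8 h)

/-- The predicate `p` is enumeration reducible to `Z`. -/
def ER {α : Type} [Primcodable α] (Z : Set ℕ) (p : α → Prop) : Prop :=
  EF (fun _ : Unit => Z) fun a _ => p a

theorem red_iff {A Z : Set ℕ} : Red A Z ↔ ER Z fun x => x ∈ A :=
  exists_congr fun _ => and_congr_right fun _ => forall_congr' fun _ =>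
    ⟨fun h _ => h, fun h => h ()⟩

section er
variable {α β : Type} [Primcodable α] [Primcodable β] {Z : Set ℕ} {p q : α → Prop}

theorem ER.of_iff (h : ER Z p) (e : ∀ a, q a ↔ p a) : ER Z q := EF.of_iff h fun a _ => e a
theorem er_re (h : REPred p) : ER Z p := ef_re h
theorem er_and (hp : ER Z p) (hq : ER Z q) : ER Z fun a => p a ∧ q a := ef_and hp hq
theorem er_or (hp : ER Z p) (hq : ER Z q) : ER Z fun a => p a ∨ q a := ef_or hp hq
theorem er_imp (hp : ComputablePred p) (hq : ER Z q) : ER Z fun a => p a → q a := ef_imp hp hq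
theorem er_comp {p : β → Prop} {g : α → β} (h : ER Z p) (hg : Computable g) :
    ER Z fun a => p (g a) := ef_comp (p := fun b _ => p b) h hg
theorem er_ex {p : α → β → Prop} (h : ER Z fun z : α × β => p z.1 z.2) :
    ER Z fun a => ∃ b, p a b := ef_ex (p := fun a b _ => p a b) h
theorem er_ball {n : α → ℕ} {p : α → ℕ → Prop} (hn : Computable n)
    (h : ER Z fun z : α × ℕ => p z.1 z.2) : ER Z fun a => Ball (n a) fun b => p a b :=
  ef_ball (p := fun a b _ => p a b) hn h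

theorem Red.er {A : Set ℕ} (h : Red A Z) {f : α → ℕ} (hf : Computable f) :
    ER Z fun a => f a ∈ A := er_comp (red_iff.1 h) hf

theorem ER.trans {Y : Set ℕ} (h : ER Y p) (h' : Red Y Z) : ER Z p := by
  obtain ⟨R, hR, h⟩ := h
  refine ER.of_iff (p := fun a => ∃ D : List ℕ, (Lall D fun y => y ∈ Y) ∧ R (a, D))
    (er_ex (er_and ?_ (er_re hR))) fun a => h a ()
  exact ef_lall (p := fun _ y _ => y ∈ Y) (by fun_prop) (h'.er (by fun_prop))

end er

theorem Red.refl (A : Set ℕ) : Red A A := red_iff.2 (ef_mem (Z := fun _ => A) Computable.id)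

theorem Red.trans {A B C : Set ℕ} (h : Red A B) (h' : Red B C) : Red A C :=
  red_iff.2 ((red_iff.1 h).trans h')

theorem red_join {A B C : Set ℕ} (h : Red A C) (h' : Red B C) : Red (join A B) C :=
  red_iff.2 (er_or (er_and (er_re (by fun_prop)) (h.er (by fun_prop)))
    (er_and (er_re (by fun_prop)) (h'.er (by fun_prop))))

theorem mem_left {A B : Set ℕ} {x : ℕ} : 2 * x ∈ join A B ↔ x ∈ A := by
  simp [join]

theorem mem_right {A B : Set ℕ} {x : ℕ} : 2 * x + 1 ∈ join A B ↔ x ∈ B := by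
  have : (2 * x + 1) / 2 = x := by omega
  simp [join, this]

theorem red_left (A B : Set ℕ) : Red A (join A B) :=
  red_iff.2 (((Red.refl (join A B)).er (f := fun x => 2 * x) (by fun_prop)).of_iff
    fun _ => mem_left.symm)

theorem red_right (A B : Set ℕ) : Red B (join A B) :=
  red_iff.2 (((Red.refl (join A B)).er (f := fun x => 2 * x + 1) (by fun_prop)).of_iff
    fun _ => mem_right.symm)

theorem red_op (e : ℕ) (A : Set ℕ) : Red (op e A) A :=
  red_iff.2 (ef_op (Y := fun _ _ => A) (e := fun _ => e) (x := fun x => x) (by fun_prop)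
    (by fun_prop) (ef_mem (Z := fun _ => A) (by fun_prop)))

theorem red_kset (A : Set ℕ) : Red (kset A) A :=
  red_iff.2 (ef_op (Y := fun _ _ => A) (e := fun n : ℕ => n.unpair.1)
    (x := fun n : ℕ => n.unpair.2) (by fun_prop) (by fun_prop)
    (ef_mem (Z := fun _ => A) (by fun_prop)))

/-- A set below `A` and its complement are below the jump of `A`. -/
theorem Red.jump_dec {Y A : Set ℕ} (h : Red Y A) : Red Y (jump A) ∧ Red Yᶜ (jump A) := by
  obtain ⟨e, rfl⟩ := h.index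
  exact ⟨red_iff.2 (((red_left _ _).er (f := fun x => Nat.pair e x) (by fun_prop)).of_iff
      fun x => by simp [kset]),
    red_iff.2 (((red_right _ _).er (f := fun x => Nat.pair e x) (by fun_prop)).of_iff
      fun x => by simp [kset])⟩

theorem Red.jump_mono {A B : Set ℕ} (h : Red A B) : Red (jump A) (jump B) :=
  red_join ((red_kset A).trans h).jump_dec.1 ((red_kset A).trans h).jump_dec.2

end Pool.Agent.MP_750bb3_lc.J
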