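import Mathlib

/-! Enumeration reducibility, the join and the enumeration jump. -/

set_option autoImplicit false

namespace Pool.Agent.MP_750bb3_lc.J

/-- Enumeration reducibility `A ≤_e B`. -/
def Red (A B : Set ℕ) : Prop :=
  ∃ W : ℕ × List ℕ → Prop, REPred W ∧ ∀ x, x ∈ A ↔ ∃ D : List ℕ, (∀ y ∈ D, y ∈ B) ∧ W (x, D)

/-- The join `A ⊕ B`. -/
def join (A B : Set ℕ) : Set ℕ := {z | (z % 2 = 0 ∧ z / 2 ∈ A) ∨ (z % 2 = 1 ∧ z / 2 ∈ B)}

/-- The enumeration operator number `e` applied to `A`: its rules are the pairs `(x, D)` whose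
code is in the domain of program number `e`. -/
def op (e : ℕ) (A : Set ℕ) : Set ℕ :=
  {x | ∃ D : List ℕ, (∀ y ∈ D, y ∈ A) ∧
    ((Denumerable.ofNat Nat.Partrec.Code e).eval (Encodable.encode (x, D))).Dom}

/-- The set of pairs `⟨e, x⟩` with `x` in operator number `e` applied to `A`. -/
def kset (A : Set ℕ) : Set ℕ := {n | n.unpair.2 ∈ op n.unpair.1 A}

/-- The enumeration jump. -/
def jump (A : Set ℕ) : Set ℕ := join (kset A) (kset A)ᶜ

end Pool.Agent.MP_750bb3_lc.J
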