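import Pool.Agent.MP_750bb3_lc.J.Main

/-! Finite conditions, generic sets, and embeddings from independent columns. -/

set_option autoImplicit false

namespace Pool.Agent.MP_750bb3_lc.J

open MP750S (Ball Bex Lall lset)
open Classical Filter

theorem embed {A B T : Set ℕ} {lb : ℕ → ℕ} (hl : Computable lb) (hAB : Red A B) (hT : Red T B)
    (hind : ∀ i, ¬ Red {y | lb y = i ∧ y ∈ T} (join A {y | lb y ≠ i ∧ y ∈ T})) (P : Type)
    [PartialOrder P] [Countable P] : ∃ f : P → Set ℕ, (∀ x y, x ≤ y ↔ Red (f x) (f y)) ∧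
      (∀ x y s, IsLUB {x, y} s → Red (f s) (join (f x) (f y))) ∧
      ∀ x, (Red A (f x) ∧ ¬ Red (f x) A) ∧ (Red (f x) B ∧ ¬ Red B (f x)) := by
  rcases isEmpty_or_nonempty P with hP | ⟨⟨p0⟩⟩
  · exact ⟨fun _ => ∅, fun x => isEmptyElim x, fun x => isEmptyElim x, fun x => isEmptyElim x⟩
  let c : Set ℕ → Set ℕ := fun I => {y | lb y ∈ I ∧ y ∈ T}
  have cr : ∀ {I I₁ I₂ C : Set ℕ}, (ComputablePred fun l => l ∈ I) → I ⊆ I₁ ∪ I₂ →
      Red (c I₁) C → Red (c I₂) C → Red (c I) C := fun {I _ _ _} hI h h1 h2 =>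
    red_iff.2 ((er_and (p := fun y => lb y ∈ I) (er_re (MP750S.p_comp hI hl).to_re)
      (er_or (red_iff.1 h1) (red_iff.1 h2))).of_iff fun _ =>
        ⟨fun k => ⟨k.1, (h k.1).imp (⟨·, k.2⟩) (⟨·, k.2⟩)⟩,
          fun k => ⟨k.1, k.2.elim And.right And.right⟩⟩)
  have hc : ∀ I : Set ℕ, (ComputablePred fun l => l ∈ I) → Red (c I) B := fun I hI =>
    red_iff.2 (er_and (er_re (MP750S.p_comp hI hl).to_re) (red_iff.1 hT))
  have hone : ∀ i : ℕ, ComputablePred fun l => l ∈ ({i} : Set ℕ) := fun i =>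
    show ComputablePred fun l => l = i by fun_prop
  have hsep : ∀ (i : ℕ) (I C : Set ℕ), (ComputablePred fun l => l ∈ I) → i ∉ I →
      Red (c {i}) C → ¬ Red C (join A (c I)) := fun i I C hI hi h1 h2 =>
    hind i (h1.trans (h2.trans (red_join (red_left _ _) (cr (I₁ := {i}ᶜ) (I₂ := {i}ᶜ) hI
      (fun l hl => Or.inl fun (k : l = i) => hi (k ▸ hl)) (red_right _ _) (red_right _ _)))))
  have : Nonempty P := ⟨p0⟩
  obtain ⟨g, hg⟩ := exists_surjective_nat P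
  choose ix hix using hg
  obtain ⟨I, hI, i1, i2⟩ := boolrep p0 fun n => {y | ¬ g n ≤ y}
  let L : P → Set ℕ := fun x => {l | l = 0 ∨ (2 ≤ l ∧ l - 2 ∈ I (ix x))}
  have hL : ∀ x, ComputablePred fun l => l ∈ L x := fun x =>
    MP750S.p_or (by fun_prop) (MP750S.p_and (by fun_prop)
      (MP750S.p_comp (hI (ix x)) (g := fun l => l - 2) (by fun_prop)))
  have hsub : ∀ x y s, (∀ q, x ≤ q → y ≤ q → s ≤ q) → L s ⊆ L x ∪ L y := fun x y s h l hl => by
    rcases hl with k | ⟨k, k'⟩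
    · exact Or.inl (Or.inl k)
    · obtain ⟨q, hq⟩ := i1 (l - 2) (ix x + ix y + ix s + 1)
      have a := (hq (ix s) (by omega)).1 k'
      have b := hq (ix x) (by omega)
      have c := hq (ix y) (by omega)
      simp only [Set.mem_ofPred_eq, hix] at a b c
      by_cases d : x ≤ q
      · exact Or.inr (Or.inr ⟨k, c.2 fun d' => a (h q d d')⟩)
      · exact Or.inl (Or.inr ⟨k, b.2 d⟩)
  refine ⟨fun x => join A (c (L x)), fun x y => ⟨fun h => red_join (red_left _ _)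
    (cr (hL x) (hsub y y x fun q k _ => h.trans k) (red_right _ _) (red_right _ _)),
    fun h => ?_⟩, fun x y s h => red_join ((red_left _ _).trans (red_left _ _))
      (cr (hL s) (hsub x y s fun q a b => h.2 ?_) ((red_right _ _).trans (red_left _ _))
        ((red_right _ _).trans (red_right _ _))),
    fun x => ⟨⟨red_left _ _, fun h => hind 0 ((cr (hone 0) ?_ (red_right _ _)
      (red_right _ _)).trans (h.trans (red_left _ _)))⟩,
      red_join hAB (hc _ (hL x)), hsep 1 _ _ (hL x) ?_ (hc _ (hone _))⟩⟩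
  · by_contra hn
    obtain ⟨l, hl⟩ := i2 y (ix x + ix y + 1)
    have a := hl (ix x) (by omega)
    have b := hl (ix y) (by omega)
    simp only [Set.mem_ofPred_eq, hix] at a b
    refine hsep (l + 2) _ _ (hL y) ?_ (cr (hone _) ?_ (red_right _ _) (red_right _ _)) h
    · rintro (k | k)
      · omega
      · exact b.1 k.2 le_rfl
    · rintro _ rfl
      exact Or.inl (Or.inr ⟨by omega, a.2 hn⟩)
  · rintro _ (rfl | rfl)
    · exact a
    · exact b
  · rintro _ rfl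
    exact Or.inl (Or.inl rfl)
  · rintro (k | k)
    · omega
    · have := k.1
      omega

theorem er_empty {α : Type} [Primcodable α] {p : α → Prop} (h : ER ∅ p) : REPred p := by
  obtain ⟨R, hR, h⟩ := h
  refine (MP750S.r_comp (g := fun a => (a, [])) hR (by fun_prop)).of_eq fun a => ?_
  refine Iff.trans ⟨fun k => ⟨[], by simp, k⟩, fun ⟨D, k, k'⟩ => ?_⟩ (h a ()).symm
  rwa [List.eq_nil_iff_forall_not_mem.2 k] at k'

theorem er_co {α : Type} [Primcodable α] {p : α → Prop} (h : REPred p) :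
    ER (jump ∅) fun a => ¬ p a := by
  have h1 : Red {n | ∃ a, Encodable.encode a = n ∧ p a} ∅ :=
    red_iff.2 (er_re (show REPred fun n => ∃ a, Encodable.encode a = n ∧ p a by fun_prop))
  exact (h1.jump_dec.2.er (f := fun a : α => Encodable.encode a) (by fun_prop)).of_iff
    fun a => by simp

/-- Normal form of the predicates below the jump of the empty set. -/
theorem er_nf {α : Type} [Primcodable α] {p : α → Prop} (h : ER (jump ∅) p) :
    ∃ Q : α × List ℕ × ℕ → Prop, REPred Q ∧ ∀ a, p a ↔ ∃ w, ¬ Q (a, w) := by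
  obtain ⟨R, hR, h⟩ := h
  have hk : REPred fun n => n ∈ kset ∅ := er_empty (red_iff.1 (red_kset ∅))
  obtain ⟨T, hT, hT'⟩ := MP750S.re_iff.1 (show REPred fun z : α × List ℕ => R z ∧
    Lall z.2 fun y => y % 2 = 0 → y / 2 ∈ kset ∅ by fun_prop)
  refine ⟨fun z => ¬ T ((z.1, z.2.1), z.2.2) ∨ ∃ y, y ∈ z.2.1 ∧ y % 2 = 1 ∧ y / 2 ∈ kset ∅,
    by fun_prop, fun a => (h a ()).trans ⟨?_, ?_⟩⟩
  · rintro ⟨D, h1, h2⟩
    obtain ⟨n, hn⟩ := (hT' (a, D)).1 ⟨h2, fun y hy e => (h1 y hy).elim And.right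
      fun k => by have := k.1; omega⟩
    refine ⟨(D, n), not_or.2 ⟨not_not.2 hn, fun ⟨y, a, b, c⟩ => (h1 y a).elim
      (fun k => by have := k.1; omega) fun k => k.2 c⟩⟩
  · rintro ⟨⟨D, n⟩, hw⟩
    obtain ⟨h1, h2⟩ := not_or.1 hw
    obtain ⟨h3, h4⟩ := (hT' (a, D)).2 ⟨n, not_not.1 h1⟩
    refine ⟨D, fun y hy => ?_, h3⟩
    rcases Nat.mod_two_eq_zero_or_one y with e | e
    · exact Or.inl ⟨e, h4 y hy e⟩
    · exact Or.inr ⟨e, fun k => h2 ⟨y, hy, e, k⟩⟩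

/-- Numbers put in by the condition `τ` (length and bit mask). -/
def lo (τ : ℕ × ℕ) : Set ℕ := {j | j < τ.1 ∧ tb τ.2 j}

/-- Numbers not kept out by the condition `τ`. -/
def hi (τ : ℕ × ℕ) : Set ℕ := {j | j < τ.1 → tb τ.2 j}

/-- The condition `τ` extends `σ`. -/
def Le (τ σ : ℕ × ℕ) : Prop := σ.1 ≤ τ.1 ∧ Ball σ.1 fun j => tb τ.2 j ↔ tb σ.2 j

/-- The set `A` agrees with the condition `τ`. -/
def Ext (τ : ℕ × ℕ) (A : Set ℕ) : Prop := ∀ j < τ.1, tb τ.2 j ↔ j ∈ A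

theorem Le.refl (τ : ℕ × ℕ) : Le τ τ := ⟨le_rfl, fun _ _ => Iff.rfl⟩

theorem Le.trans {τ σ ρ : ℕ × ℕ} (h : Le τ σ) (h' : Le σ ρ) : Le τ ρ :=
  ⟨h'.1.trans h.1, fun j hj => (h.2 j (hj.trans_le h'.1)).trans (h'.2 j hj)⟩

theorem Le.lo {τ σ : ℕ × ℕ} (h : Le τ σ) : lo σ ⊆ lo τ :=
  fun j hj => ⟨hj.1.trans_le h.1, (h.2 j hj.1).2 hj.2⟩

theorem Le.hi {τ σ : ℕ × ℕ} (h : Le τ σ) : hi τ ⊆ hi σ :=
  fun j hj k => (h.2 j k).1 (hj (k.trans_le h.1))

theorem Ext.lo {τ : ℕ × ℕ} {A : Set ℕ} (h : Ext τ A) : lo τ ⊆ A := fun j hj => (h j hj.1).1 hj.2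

theorem Ext.hi {τ : ℕ × ℕ} {A : Set ℕ} (h : Ext τ A) : A ⊆ hi τ := fun j hj k => (h j k).2 hj

theorem ext_bm (A : Set ℕ) (k : ℕ) : Ext (k, bm A k) A := fun _ hj =>
  tb_bm.trans (and_iff_right hj)

theorem Ext.le {τ σ : ℕ × ℕ} {A : Set ℕ} (h : Ext τ A) (h' : Ext σ A) (k : σ.1 ≤ τ.1) : Le τ σ :=
  ⟨k, fun j hj => (h j (hj.trans_le k)).trans (h' j hj).symm⟩

theorem generic {ι : Type} [Countable ι] (D : ι → ℕ × ℕ → Prop)
    (h : ∀ i σ, ∃ τ, Le τ σ ∧ D i τ) :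
    ∀ᶠ a in residual (ℕ → Bool), ∀ i, ∃ τ, Ext τ {n | a n = true} ∧ D i τ := by
  refine eventually_countable_forall.2 fun i => residual_of_dense_open ?_ ?_
  · have e : {a : ℕ → Bool | ∃ τ, Ext τ {n | a n = true} ∧ D i τ} = ⋃ τ ∈ {τ | D i τ},
        ⋂ j ∈ Set.Iio τ.1, (fun a : ℕ → Bool => a j) ⁻¹' {b | tb τ.2 j ↔ b = true} := by
      ext a
      simp [Ext, and_comm]
    rw [e]
    exact isOpen_biUnion fun τ _ => (Set.finite_Iio _).isOpen_biInter fun j _ =>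
      (isOpen_discrete _).preimage (continuous_apply j)
  · refine dense_iff_inter_open.2 fun U hU ⟨x, hx⟩ => ?_
    obtain ⟨I, u, h1, h2⟩ := isOpen_pi_iff.1 hU x hx
    obtain ⟨k, hk⟩ := I.bddAbove
    obtain ⟨τ, h3, h4⟩ := h i (k + 1, bm {n | x n = true} (k + 1))
    refine ⟨fun j => τ.2.testBit j, h2 fun j hj => ?_, τ, fun _ _ => Iff.rfl, h4⟩
    have hj' : j < k + 1 := Nat.lt_succ_of_le (hk hj)
    have e : τ.2.testBit j = x j :=
      Bool.eq_iff_iff.2 ((h3.2 j hj').trans (ext_bm {n | x n = true} (k + 1) j hj'))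
    simpa only [e] using (h1 j hj).2

theorem kset_mono {A B : Set ℕ} (h : A ⊆ B) : kset A ⊆ kset B := fun _ k => op_mono h k

theorem ev_lo {A : Set ℕ} {e x : ℕ} (h : x ∈ op e A) :
    ∀ᶠ k in atTop, x ∈ op e (lo (k, bm A k)) := by
  obtain ⟨D, h1, h2⟩ := h
  obtain ⟨m, hm⟩ := (List.finite_toSet D).bddAbove
  filter_upwards [eventually_gt_atTop m] with k hk
  exact ⟨D, fun y hy => ⟨(hm hy).trans_lt hk, tb_bm.2 ⟨(hm hy).trans_lt hk, h1 y hy⟩⟩, h2⟩

theorem dense_k (n : ℕ) (σ : ℕ × ℕ) : ∃ τ, Le τ σ ∧ (n ∈ kset (lo τ) ∨ n ∉ kset (hi τ)) := by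
  by_cases h : n ∈ kset (hi σ)
  · obtain ⟨k, h1, h2⟩ := ((ev_lo (e := n.unpair.1) (x := n.unpair.2) h).and
      (eventually_ge_atTop σ.1)).exists
    have h3 : Ext σ (hi σ) := fun j hj => ⟨fun a _ => a, fun a => a hj⟩
    exact ⟨(k, bm (hi σ) k), (ext_bm (hi σ) k).le h3 h2, Or.inl h1⟩
  · exact ⟨σ, Le.refl σ, Or.inr h⟩

/-- The condition `τ` forces `y` into operator `e` applied to the jump. -/
def Fo (e : ℕ) (τ : ℕ × ℕ) (y : ℕ) : Prop := y ∈ op e (join (kset (lo τ)) (kset (hi τ))ᶜ)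

theorem Fo.mono {e y : ℕ} {τ σ : ℕ × ℕ} (h : Fo e σ y) (k : Le τ σ) : Fo e τ y :=
  op_mono (fun _ hz => hz.imp (And.imp_right fun a => kset_mono k.lo a)
    (And.imp_right fun a b => a (kset_mono k.hi b))) h

theorem Fo.sound {e y : ℕ} {τ : ℕ × ℕ} {A : Set ℕ} (h : Fo e τ y) (k : Ext τ A) :
    y ∈ op e (jump A) :=
  op_mono (fun _ hz => hz.imp (And.imp_right fun a => kset_mono k.lo a)
    (And.imp_right fun a b => a (kset_mono k.hi b))) h

section gen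
variable {A : Set ℕ} (hA : ∀ n, ∃ τ, Ext τ A ∧ (n ∈ kset (lo τ) ∨ n ∉ kset (hi τ)))
include hA

theorem ev_hi {n : ℕ} (h : n ∉ kset A) : ∀ᶠ k in atTop, n ∉ kset (hi (k, bm A k)) := by
  obtain ⟨τ, h1, h2⟩ := hA n
  filter_upwards [eventually_ge_atTop τ.1] with k hk a
  exact h2.elim (fun b => h (kset_mono h1.lo b))
    fun b => b (kset_mono ((ext_bm A k).le h1 hk).hi a)

theorem ev_Fo {e y : ℕ} (h : y ∈ op e (jump A)) : ∀ᶠ k in atTop, Fo e (k, bm A k) y := by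
  obtain ⟨D, h1, h2⟩ := h
  have : ∀ᶠ k in atTop, ∀ z ∈ {z | z ∈ D},
      z ∈ join (kset (lo (k, bm A k))) (kset (hi (k, bm A k)))ᶜ := by
    refine (eventually_all_finite (List.finite_toSet D)).2 fun z hz => ?_
    rcases h1 z hz with ⟨a, b⟩ | ⟨a, b⟩
    · exact (ev_lo b).mono fun k hk => Or.inl ⟨a, hk⟩
    · exact (ev_hi hA b).mono fun k hk => Or.inr ⟨a, hk⟩
  exact this.mono fun k hk => ⟨D, hk, h2⟩

end gen

section comp
variable {α : Type} [Primcodable α] {τ σ : α → ℕ × ℕ} {e x : α → ℕ}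

@[fun_prop] theorem p_Le (h : Computable τ) (h' : Computable σ) :
    ComputablePred fun a => Le (τ a) (σ a) := by unfold Le; fun_prop

theorem r_op {Y : α → Set ℕ} (he : Computable e) (hx : Computable x)
    (hY : REPred fun z : α × ℕ => z.2 ∈ Y z.1) : REPred fun a => x a ∈ op (e a) (Y a) :=
  er_empty (ef_op (Y := fun a _ => Y a) he hx (ef_re hY))

theorem r_lo (h : Computable τ) : REPred fun z : α × ℕ => z.2 ∈ lo (τ z.1) :=
  show REPred fun z : α × ℕ => z.2 < (τ z.1).1 ∧ tb (τ z.1).2 z.2 by fun_prop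

theorem r_hi (h : Computable τ) : REPred fun z : α × ℕ => z.2 ∈ hi (τ z.1) :=
  show REPred fun z : α × ℕ => z.2 < (τ z.1).1 → tb (τ z.1).2 z.2 by fun_prop

theorem er_Fo (e : ℕ) (h : Computable τ) (hx : Computable x) :
    ER (jump ∅) fun a => Fo e (τ a) (x a) := by
  have h' : Computable fun z : α × ℕ => τ z.1 := by fun_prop
  refine ef_op (Y := fun a _ => join (kset (lo (τ a))) (kset (hi (τ a)))ᶜ) (e := fun _ => e)
    (by fun_prop) hx (er_or (er_and (er_re (by fun_prop)) (er_re ?_))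
      (er_and (er_re (by fun_prop)) (er_co ?_)))
  · exact r_op (Y := fun z : α × ℕ => lo (τ z.1)) (e := fun z => (z.2 / 2).unpair.1)
      (x := fun z => (z.2 / 2).unpair.2) (by fun_prop) (by fun_prop) (r_lo h')
  · exact r_op (Y := fun z : α × ℕ => hi (τ z.1)) (e := fun z => (z.2 / 2).unpair.1)
      (x := fun z => (z.2 / 2).unpair.2) (by fun_prop) (by fun_prop) (r_hi h')

end comp

end Pool.Agent.MP_750bb3_lc.J
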