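import Pool.Agent.MP_750bb3_lc.J.Tree

/-! Independent columns between a generic set and a set above it. -/

set_option autoImplicit false

namespace Pool.Agent.MP_750bb3_lc.J

open MP750S (Ball Bex Lall lset)
open Classical Filter

theorem EF.index {Φ : ℕ → Set ℕ → Prop} (h : EF (fun A : Set ℕ => A) Φ) :
    ∃ d, ∀ A x, x ∈ op d A ↔ Φ x A := by
  obtain ⟨W, hW, h⟩ := h
  obtain ⟨c, hc⟩ := Nat.Partrec.Code.exists_code.1 hW
  refine ⟨Encodable.encode c, fun A x => Iff.trans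
    (exists_congr fun D => and_congr_right fun _ => ?_) (h x A).symm⟩
  rw [Denumerable.ofNat_encode, hc]
  simp [Part.assert]

theorem ev_op {A : Set ℕ} {X : ℕ → Set ℕ} {e x : ℕ} (h : x ∈ op e A)
    (hX : ∀ y ∈ A, ∀ᶠ k in atTop, y ∈ X k) : ∀ᶠ k in atTop, x ∈ op e (X k) := by
  obtain ⟨D, h1, h2⟩ := h
  exact ((eventually_all_finite (List.finite_toSet D)).2 fun z hz => hX z (h1 z hz)).mono
    fun k hk => ⟨D, hk, h2⟩

theorem join_mono {A B A' B' : Set ℕ} (h : A ⊆ A') (h' : B ⊆ B') : join A B ⊆ join A' B' :=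
  fun _ hz => hz.imp (And.imp_right fun a => h a) (And.imp_right fun a => h' a)

/-- The column of a node. -/
noncomputable def lc (ν : ℕ × ℕ) : ℕ := (zz ν).unpair.2.unpair.2

/-- The enumerated nodes outside column `i`. -/
def UU (i : ℕ) (G Y : Set ℕ) : Set ℕ := {μ | lc μ.unpair ≠ i ∧ PP G Y μ.unpair}

/-- The strategy working at the node `ν` has a condition that wins. -/
def Cand (e e' : ℕ) (ρ ν : ℕ × ℕ) : Prop :=
  ¬ Le (zz ν).unpair.1.unpair ρ ∨ ∃ c : (ℕ × ℕ) × ℕ × List ℕ,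
    (Le c.1 (zz ν).unpair.1.unpair ∧ Le ν c.2.1.unpair ∧ zz c.2.1.unpair = zz ν) ∧
    ((Fo e c.1 c.2.1.unpair.1.unpair.1 ∧ ¬ c.2.1 ∈ op (zz ν).unpair.2.unpair.1
        (join (hi c.1) (UU (lc ν) (hi ν) (lset c.2.2))) ∧
        Ball ν.1 fun r => (lc (r, ν.2) ≠ lc ν ∧ r.unpair.1 ∉ c.2.2) → Fo e' c.1 r.unpair.1) ∨
      (Fo e' c.1 c.2.1.unpair.1.unpair.1 ∧ c.2.1 ∈ op (zz ν).unpair.2.unpair.1
        (join (lo c.1) (UU (lc ν) (lo ν) (lset c.2.2))) ∧ Lall c.2.2 fun d => Fo e c.1 d))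

section comp
variable {α : Type} [Primcodable α]

@[fun_prop] theorem c_lc {ν : α → ℕ × ℕ} (h : Computable ν) : Computable fun a => lc (ν a) := by
  unfold lc; fun_prop

theorem r_UU {i : α → ℕ} {D : α → List ℕ} {G : α → Set ℕ} (hi : Computable i)
    (hD : Computable D) (hG : REPred fun z : α × ℕ => z.2 ∈ G z.1) :
    REPred fun z : α × ℕ => z.2 ∈ UU (i z.1) (G z.1) (lset (D z.1)) :=
  MP750S.r_and (by fun_prop) (er_empty (er_PP (G := fun z : α × ℕ => G z.1)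
    (Y := fun z => lset (D z.1)) (μ := fun z => z.2.unpair) (by fun_prop)
    (er_re (MP750S.r_comp (g := fun z : (α × ℕ) × ℕ => (z.1.1, z.2)) hG (by fun_prop)))
    (er_re (show REPred fun z : α × ℕ => z.2.unpair.1.unpair.1 ∈ D z.1 by fun_prop))))

theorem r_join {X Y : α → Set ℕ} (hX : REPred fun z : α × ℕ => z.2 ∈ X z.1)
    (hY : REPred fun z : α × ℕ => z.2 ∈ Y z.1) :
    REPred fun z : α × ℕ => z.2 ∈ join (X z.1) (Y z.1) :=
  MP750S.r_or (MP750S.r_and (by fun_prop)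
    (MP750S.r_comp (g := fun z : α × ℕ => (z.1, z.2 / 2)) hX (by fun_prop)))
    (MP750S.r_and (by fun_prop)
      (MP750S.r_comp (g := fun z : α × ℕ => (z.1, z.2 / 2)) hY (by fun_prop)))

theorem r_test {f : ℕ × ℕ → Set ℕ} (hf : REPred fun z : (ℕ × ℕ) × ℕ => z.2 ∈ f z.1)
    {ν τ : α → ℕ × ℕ} {m : α → ℕ} {D : α → List ℕ} (hν : Computable ν) (hτ : Computable τ)
    (hm : Computable m) (hD : Computable D) : REPred fun a => m a ∈
      op (zz (ν a)).unpair.2.unpair.1 (join (f (τ a)) (UU (lc (ν a)) (f (ν a)) (lset (D a)))) := by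
  have h0 : ∀ {g : α → ℕ × ℕ}, Computable g → REPred fun z : α × ℕ => z.2 ∈ f (g z.1) :=
    fun {g} hg => MP750S.r_comp (g := fun z : α × ℕ => (g z.1, z.2)) hf (by fun_prop)
  exact r_op (Y := fun a => join (f (τ a)) (UU (lc (ν a)) (f (ν a)) (lset (D a)))) (by fun_prop)
    hm (r_join (X := fun a => f (τ a)) (Y := fun a => UU (lc (ν a)) (f (ν a)) (lset (D a)))
      (h0 hτ) (r_UU (i := fun a => lc (ν a)) (G := fun a => f (ν a)) (by fun_prop) hD (h0 hν)))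

end comp

theorem er_Cand (e e' : ℕ) (ρ : ℕ × ℕ) : ER (jump ∅) (Cand e e' ρ) := by
  refine er_or (er_re (by fun_prop)) (er_ex (er_and (er_re (ComputablePred.to_re (by fun_prop)))
    (er_or (er_and (er_Fo e (by fun_prop) (by fun_prop)) (er_and (er_co ?_)
      (er_ball (by fun_prop) (er_imp (by fun_prop) (er_Fo e' (by fun_prop) (by fun_prop))))))
      (er_and (er_Fo e' (by fun_prop) (by fun_prop)) (er_and (er_re ?_)
        (ef_lall (p := fun (z : (ℕ × ℕ) × (ℕ × ℕ) × ℕ × List ℕ) d _ => Fo e z.2.1 d)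
          (by fun_prop) (er_Fo e (by fun_prop) (by fun_prop))))))))
  · exact r_test (f := hi) (r_hi (τ := fun x => x) Computable.id) (by fun_prop) (by fun_prop)
      (by fun_prop) (by fun_prop)
  · exact r_test (f := lo) (r_lo (τ := fun x => x) Computable.id) (by fun_prop) (by fun_prop)
      (by fun_prop) (by fun_prop)

/-- Below `σ` some number is never decided, or the decided set is an image of the generic set. -/
def Bad (e e' : ℕ) (σ : ℕ × ℕ) : Prop :=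
  (∃ x, ∀ τ, Le τ σ → ¬ Fo e τ x ∧ ¬ Fo e' τ x) ∨
    ∃ d, ∀ τ, Le τ σ → ∀ x, ¬ (Fo e τ x ∧ x ∉ op d (hi τ)) ∧ ¬ (Fo e' τ x ∧ x ∈ op d (lo τ))

/-- The condition `τ` defeats operator `d` on column `i`. -/
def Win (e e' : ℕ) (F : Set ℕ) (d i : ℕ) (τ : ℕ × ℕ) : Prop :=
  ∀ A B, Ext τ A → B = op e (jump A) → Bᶜ = op e' (jump A) →
    {μ | lc μ.unpair = i ∧ PP F B μ.unpair} ≠ op d (join A (UU i F B))

theorem Cand.win {e e' : ℕ} {ρ ν : ℕ × ℕ} {F : Set ℕ} (h : Cand e e' ρ ν) (hν : Ext ν F)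
    (k : Le (zz ν).unpair.1.unpair ρ) : ∃ τ, Le τ (zz ν).unpair.1.unpair ∧
      Win e e' F (zz ν).unpair.2.unpair.1 (lc ν) τ := by
  obtain ⟨⟨τ, m, D⟩, ⟨h1, h2, h3⟩, h4⟩ := h.resolve_left (not_not.2 k)
  refine ⟨τ, h1, fun A B hA hB hB' E => ?_⟩
  have s : ∀ {x}, Fo e τ x → x ∈ B := fun a => hB ▸ a.sound hA
  have s' : ∀ {x}, Fo e' τ x → x ∉ B := fun {x} a => show x ∈ Bᶜ from hB' ▸ a.sound hA
  have hm : Ext m.unpair F := fun j hj => (h2.2 j hj).symm.trans (hν j (hj.trans_le h2.1))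
  have E' := Set.ext_iff.1 E m
  rcases h4 with ⟨a, b, c⟩ | ⟨a, b, c⟩
  · refine b (op_mono (join_mono (B := UU (lc ν) F B) hA.hi fun μ hμ => And.intro hμ.1
      ((hμ.2.mono hν.hi le_rfl).tr (fun _ _ _ t => t) fun t u => ?_))
      (E'.1 ⟨by rw [lc, h3, lc], hm.pp.2 (s a)⟩))
    have t' : Ext ν (hi ν) := fun j hj => ⟨fun a _ => a, fun a => a hj⟩
    have l : μ.unpair.1 < ν.1 := lt_of_not_ge fun l => hμ.1 (by
      rw [lc, lc, t.zz, t'.zz, cn_const (G := hi ν) (fun j hj a => absurd a (not_lt.2 hj)) l])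
    by_contra n
    refine s' (c _ l ⟨fun q => hμ.1 ?_, n⟩) u
    have t'' : Ext (μ.unpair.1, ν.2) (hi ν) := fun j hj => t' j (hj.trans l)
    rw [← q, lc, lc, t.zz, t''.zz]
  · exact s' a (hm.pp.1 (E'.2 (op_mono (join_mono (B := UU (lc ν) (lo ν) (lset D)) hA.lo
      fun μ hμ => And.intro hμ.1 (hμ.2.mono hν.lo fun d hd => s (c d hd))) b)).2)

theorem cand_of_fin {e e' n : ℕ} {ρ : ℕ × ℕ} {F : Set ℕ} (hN : ∀ σ, Le σ ρ → ¬ Bad e e' σ)
    (hF : ∀ j, n ≤ j → j ∈ F) : ∃ ν, Ext ν F ∧ n ≤ ν.1 ∧ Cand e e' ρ ν := by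
  have hz : ∀ ν, Ext ν F → n ≤ ν.1 → zz ν = cn F n := fun ν a b => a.zz.trans (cn_const hF b)
  have hh : ∀ k, n ≤ k → hi (k, bm F k) = F := fun k hk => Set.Subset.antisymm
    (fun j hj => (lt_or_ge j k).elim (fun a => (tb_bm.1 (hj a)).2) fun a => hF j (hk.trans a))
    (ext_bm F k).hi
  by_cases k : Le (cn F n).unpair.1.unpair ρ
  swap
  · exact ⟨_, ext_bm F n, le_rfl, Or.inl (by rwa [hz _ (ext_bm F n) le_rfl])⟩
  have h1 : ∀ m, ∃ σ, Le σ (cn F n).unpair.1.unpair ∧ ∃ D : List ℕ, (∀ d ∈ D, Fo e σ d) ∧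
      ∀ x < m, x ∉ D → Fo e' σ x := fun m => by
    induction m with
    | zero => exact ⟨_, Le.refl _, [], by simp, by simp⟩
    | succ m ih =>
      obtain ⟨σ, a, D, b, c⟩ := ih
      have := (not_or.1 (hN σ (a.trans k))).1
      push Not at this
      obtain ⟨τ, p, q⟩ := this m
      by_cases r : Fo e τ m
      · refine ⟨τ, p.trans a, m :: D, fun d hd => (List.mem_cons.1 hd).elim (· ▸ r)
          fun t => (b d t).mono p, fun x hx t => ?_⟩
        rw [List.mem_cons, not_or] at t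
        exact (c x (by omega) t.2).mono p
      · refine ⟨τ, p.trans a, D, fun d hd => (b d hd).mono p, fun x hx t => ?_⟩
        rcases Nat.lt_succ_iff_lt_or_eq.1 hx with u | rfl
        · exact (c x u t).mono p
        · exact q r
  obtain ⟨σ, a, D, b, c⟩ := h1 n
  have hU : REPred fun μ => μ ∈ UU (cn F n).unpair.2.unpair.2 F (lset D) := by
    have := MP750S.r_comp (g := fun μ : ℕ => ((0 : ℕ), μ)) (r_UU (α := ℕ)
      (i := fun _ => (cn F n).unpair.2.unpair.2) (D := fun _ => D) (G := fun _ => hi (n, bm F n))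
      (by fun_prop) (by fun_prop)
      (r_hi (τ := fun _ : ℕ => (n, bm F n)) (by fun_prop))) (by fun_prop)
    simpa only [hh n le_rfl] using this
  obtain ⟨d, hd⟩ := EF.index (Φ := fun x A => ∃ H, (Ball (Nat.pair x n) fun j => tb H j ↔
      (j < n → tb (bm F n) j)) ∧ Nat.pair (Nat.pair x n) H ∈ op (cn F n).unpair.2.unpair.1
        (join A (UU (cn F n).unpair.2.unpair.2 F (lset D))))
    (ef_ex (ef_and (ef_re (ComputablePred.to_re (by fun_prop)))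
      (ef_op (Y := fun _ A => join A (UU (cn F n).unpair.2.unpair.2 F (lset D))) (by fun_prop)
        (by fun_prop) (ef_or (ef_and (ef_re (by fun_prop)) (ef_mem (by fun_prop)))
          (ef_and (ef_re (by fun_prop)) (ef_re (MP750S.r_comp
            (g := fun z : (ℕ × ℕ) × ℕ => z.2 / 2) hU (by fun_prop))))))))
  have hd' : ∀ A x, x ∈ op d A ↔ ∃ H, Ext (Nat.pair x n, H) F ∧ Nat.pair (Nat.pair x n) H ∈
      op (cn F n).unpair.2.unpair.1 (join A (UU (cn F n).unpair.2.unpair.2 F (lset D))) :=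
    fun A x => (hd A x).trans (exists_congr fun H => and_congr_left fun _ =>
      forall₂_congr fun j _ => iff_congr Iff.rfl (Set.ext_iff.1 (hh n le_rfl) j))
  have := (not_or.1 (hN σ (a.trans k))).2
  simp only [not_exists, not_forall, not_and_or, not_not] at this
  obtain ⟨τ, p, x, q⟩ := this d
  have hr : n ≤ Nat.pair x n := Nat.right_le_pair _ _
  rcases q with q | q
  · obtain ⟨q, q'⟩ : Fo e τ x ∧ x ∉ op d (hi τ) := by tauto
    have t := ext_bm F (Nat.pair x n)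
    have u := hz _ t hr
    refine ⟨_, t, hr, Or.inr ⟨(τ, Nat.pair (Nat.pair x n) (bm F (Nat.pair x n)), D), ?_,
      Or.inl ?_⟩⟩
    · simp only [Nat.unpair_pair, u, and_true]
      exact ⟨p.trans a, Le.refl _⟩
    · simp only [Nat.unpair_pair, lc, u, hh _ hr]
      refine ⟨q, fun v => q' ((hd' _ _).2 ⟨_, t, v⟩), fun r hr' v =>
        (c _ ((Nat.unpair_left_le r).trans_lt (lt_of_not_ge fun w => v.1 ?_)) v.2).mono p⟩
      rw [hz (r, _) (fun j hj => t j (hj.trans hr')) w]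
  · obtain ⟨q, q'⟩ : Fo e' τ x ∧ x ∈ op d (lo τ) := by tauto
    obtain ⟨H, t, v⟩ := (hd' _ _).1 q'
    obtain ⟨l, v', hl⟩ := ((ev_op (X := fun l => join (lo τ) (UU (cn F n).unpair.2.unpair.2
      (lo (l, bm F l)) (lset D))) v fun y hy => (eventually_ge_atTop (y / 2).unpair.1).mono
        fun l hl => hy.imp_right (And.imp_right (And.imp_right fun w => w.tr (fun j hj _ r =>
          ⟨hj.trans_le hl, tb_bm.2 ⟨hj.trans_le hl, r⟩⟩) fun _ r => r))).and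
      (eventually_ge_atTop (Nat.pair x n))).exists
    have u := hz _ (ext_bm F l) (hr.trans hl)
    refine ⟨_, ext_bm F l, hr.trans hl, Or.inr ⟨(τ, Nat.pair (Nat.pair x n) H, D), ?_,
      Or.inr ?_⟩⟩
    · simp only [Nat.unpair_pair, u, hz _ t hr, and_true]
      exact ⟨p.trans a, (ext_bm F l).le t hl⟩
    · simp only [Nat.unpair_pair, lc, u]
      exact ⟨q, v', fun y hy => (b y hy).mono p⟩

theorem core (e e' : ℕ) (ρ : ℕ × ℕ) : ∃ F : Set ℕ, (∀ Y, Red {μ | PP F Y μ.unpair} Y) ∧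
    ∀ d i σ, ∃ τ, Le τ σ ∧ ((∀ σ, Le σ ρ → ¬ Bad e e' σ) →
      (ρ.1 ≤ τ.1 ∧ ¬ Le τ ρ) ∨ Win e e' F d i τ) := by
  obtain ⟨F, h1, h2, h3⟩ := tree (er_Cand e e' ρ)
  refine ⟨F, h1, fun d i σ => ?_⟩
  by_cases hN : ∀ σ, Le σ ρ → ¬ Bad e e' σ
  swap
  · exact ⟨σ, Le.refl σ, fun h => absurd h hN⟩
  have hi : {j | j ∉ F}.Infinite := fun hf => by
    obtain ⟨n, hn⟩ := hf.bddAbove
    have hF : ∀ j, n + 1 ≤ j → j ∈ F := fun j hj => not_not.1 fun k => by
      have := hn k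
      omega
    obtain ⟨ν, a, b, c⟩ := cand_of_fin hN hF
    exact h3 ν a (fun j hj => hF j (b.trans hj)) c
  have l : Le (σ.1 + ρ.1, σ.2) σ := ⟨Nat.le_add_right _ _, fun _ _ => Iff.rfl⟩
  by_cases k : Le (σ.1 + ρ.1, σ.2) ρ
  swap
  · exact ⟨_, l, fun _ => Or.inl ⟨Nat.le_add_left _ _, k⟩⟩
  obtain ⟨ν, a, b, c⟩ := h2 _ (Nat.nth_mem_of_infinite hi
    (Nat.pair (Nat.pair (σ.1 + ρ.1) σ.2) (Nat.pair d i)))
  rw [cn, Nat.count_nth_of_infinite hi] at b
  have := c.win a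
  simp only [lc, b, Nat.unpair_pair] at this
  obtain ⟨τ, p, q⟩ := this k
  exact ⟨τ, p.trans l, fun _ => Or.inr q⟩

theorem gen_main : ∀ᶠ a in residual (ℕ → Bool), ∀ B : Set ℕ, Red {n | a n = true} B →
    ¬ Red B {n | a n = true} → Red (jump B) (jump {n | a n = true}) → ∃ T, Red T B ∧ ∀ i,
      ¬ Red {y | lc y.unpair = i ∧ y ∈ T}
        (join {n | a n = true} {y | lc y.unpair ≠ i ∧ y ∈ T}) := by
  choose F hF hF' using core
  filter_upwards [generic _ dense_k, generic (fun (i : ℕ × ℕ) τ => Bad i.1 i.2 τ ∨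
    ∀ σ, Le σ τ → ¬ Bad i.1 i.2 σ) fun i σ => by
      by_cases h : ∃ τ, Le τ σ ∧ Bad i.1 i.2 τ
      · exact h.imp fun τ k => ⟨k.1, Or.inl k.2⟩
      · exact ⟨σ, Le.refl σ, Or.inr fun τ a b => h ⟨τ, a, b⟩⟩,
    generic (ι := (ℕ × ℕ × ℕ × ℕ) × ℕ × ℕ) _
      fun i => hF' i.1.1 i.1.2.1 i.1.2.2 i.2.1 i.2.2] with a g1 g2 g3 B _ hBA hj
  generalize {n | a n = true} = A at *
  obtain ⟨e, he⟩ := ((Red.refl B).jump_dec.1.trans hj).index
  obtain ⟨e', he'⟩ := ((Red.refl B).jump_dec.2.trans hj).index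
  obtain ⟨ρ, h1, h2⟩ := g2 (e, e')
  have ev : ∀ {p : ℕ × ℕ → Prop}, (∀ᶠ k in atTop, p (k, bm A k)) → ∃ τ, Le τ ρ ∧ p τ :=
    fun h => by
      obtain ⟨k, a, b⟩ := (h.and (eventually_ge_atTop ρ.1)).exists
      exact ⟨_, (ext_bm A k).le h1 b, a⟩
  have f1 : ∀ x ∈ B, ∀ᶠ k in atTop, Fo e (k, bm A k) x := fun x hx => ev_Fo g1 (he ▸ hx)
  have f2 : ∀ x ∉ B, ∀ᶠ k in atTop, Fo e' (k, bm A k) x := fun x hx =>
    ev_Fo g1 (he' ▸ (show x ∈ Bᶜ from hx))
  rcases h2 with (⟨x, h⟩ | ⟨d, h⟩) | hN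
  · by_cases hx : x ∈ B
    · obtain ⟨τ, a, b⟩ := ev (p := fun τ => Fo e τ x) (f1 x hx)
      exact absurd b (h τ a).1
    · obtain ⟨τ, a, b⟩ := ev (p := fun τ => Fo e' τ x) (f2 x hx)
      exact absurd b (h τ a).2
  · refine absurd (?_ : B = op d A) fun k => hBA (k ▸ red_op d A)
    refine Set.ext fun x => ⟨fun hx => not_not.1 fun k => ?_, fun k => not_not.1 fun hx => ?_⟩
    · obtain ⟨τ, a, b⟩ := ev (p := fun τ => Fo e τ x ∧ Nat.pair d x ∉ kset (hi τ))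
        ((f1 x hx).and (ev_hi g1 (by simpa [kset] using k)))
      exact (h τ a x).1 ⟨b.1, by simpa [kset] using b.2⟩
    · obtain ⟨τ, a, b⟩ := ev (p := fun τ => Fo e' τ x ∧ x ∈ op d (lo τ))
        ((f2 x hx).and (ev_lo k))
      exact (h τ a x).2 b
  · refine ⟨_, hF e e' ρ B, fun i h => ?_⟩
    obtain ⟨d, hd⟩ := h.index
    obtain ⟨τ, a, b⟩ := g3 ((e, e', ρ), d, i)
    exact (b hN).elim (fun k => k.2 (a.le h1 k.1)) fun k => k A B a he he' hd

end Pool.Agent.MP_750bb3_lc.J
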