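import Pool.Agent.MP_750bb3_lc.J.Mark

/-! Decoding and the embedding theorem. -/

set_option autoImplicit false

namespace Pool.Agent.MP_750bb3_lc.J

open MP750S (Ball Bex Lall lset)
open Classical

theorem decode {J X : Set ℕ} {P : ℕ × ℕ → Prop} (h1 : ER J P) (h2 : ER J fun z => ¬ P z) (n0 : ℕ)
    (h : ∀ n, n0 ≤ n → (n ∈ X ↔ P (n, bm X n))) : Red X J ∧ Red Xᶜ J := by
  let G : ℕ × ℕ → Prop := fun z => Ball (z.1 + 1) fun r =>
    (r < n0 → (tb z.2 r ↔ tb (bm X n0) r)) ∧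
      (n0 ≤ r → (tb z.2 r ∧ P (r, z.2 % 2 ^ r)) ∨ (¬ tb z.2 r ∧ ¬ P (r, z.2 % 2 ^ r)))
  have hG : ER J G := er_ball (by fun_prop) (er_and (er_re (by fun_prop)) (er_imp (by fun_prop)
    (er_or (er_and (er_re (by fun_prop)) (er_comp h1 (by fun_prop)))
      (er_and (er_re (by fun_prop)) (er_comp (p := fun z => ¬ P z) h2 (by fun_prop))))))
  have c1 : ∀ x D, G (x, D) → ∀ r, r < x + 1 → (tb D r ↔ r ∈ X) := fun x D g r => by
    induction r using Nat.strong_induction_on with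
    | _ r ih =>
      intro hr
      rcases lt_or_ge r n0 with k | k
      · rw [(g r hr).1 k, tb_bm, and_iff_right k]
      · have e : D % 2 ^ r = bm X r := eq_bm (Nat.mod_lt _ (by positivity)) fun j hj => by
          rw [tb_mod, and_iff_right hj, ih j hj (by omega)]
        have := (g r hr).2 k
        dsimp only at this
        rw [e, ← h r k] at this
        tauto
  have c2 : ∀ x, G (x, bm X (x + 1)) := fun x r hr => by
    dsimp only at hr ⊢
    rw [bm_mod X hr.le, tb_bm, tb_bm, and_iff_right hr]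
    exact ⟨fun k => (and_iff_right k).symm, fun k => by rw [← h r k]; tauto⟩
  refine ⟨red_iff.2 (ER.of_iff (p := fun x => ∃ D, G (x, D) ∧ tb D x)
      (er_ex (er_and hG (er_re (by fun_prop)))) fun x => ⟨fun k => ⟨_, c2 x, ?_⟩, ?_⟩),
    red_iff.2 (ER.of_iff (p := fun x => ∃ D, G (x, D) ∧ ¬ tb D x)
      (er_ex (er_and hG (er_re (by fun_prop)))) fun x => ⟨fun k => ⟨_, c2 x, ?_⟩, ?_⟩)⟩
  · exact tb_bm.2 ⟨Nat.lt_succ_self x, k⟩
  · exact fun ⟨D, a, b⟩ => (c1 x D a x (Nat.lt_succ_self x)).1 b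
  · exact fun b => k (tb_bm.1 b).2
  · exact fun ⟨D, a, b⟩ k => b ((c1 x D a x (Nat.lt_succ_self x)).2 k)

theorem er_bm {α : Type} [Primcodable α] {J S : Set ℕ} (h1 : Red S J) (h2 : Red Sᶜ J) {n : α → ℕ}
    (hn : Computable n) {Q : α → ℕ → Prop} (hQ : ER J fun z : α × ℕ => Q z.1 z.2) :
    ER J fun a => Q a (bm S (n a)) := by
  refine ER.of_iff (p := fun a => ∃ H, (H < 2 ^ n a ∧ Ball (n a) fun t =>
    (tb H t ∧ t ∈ S) ∨ (¬ tb H t ∧ t ∈ Sᶜ)) ∧ Q a H) (er_ex (er_and (er_and (er_re (by fun_prop))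
      (er_ball (by fun_prop) (er_or (er_and (er_re (by fun_prop)) (h1.er (by fun_prop)))
        (er_and (er_re (by fun_prop)) (h2.er (by fun_prop)))))) hQ)) fun a => ⟨fun k => ?_, ?_⟩
  · refine ⟨_, ⟨bm_lt _ _, fun t ht => ?_⟩, k⟩
    dsimp only
    rw [tb_bm, and_iff_right ht, Set.mem_compl_iff]
    tauto
  · rintro ⟨H, ⟨a, b⟩, c⟩
    rwa [← eq_bm a fun t ht => by
      have : (tb H t ∧ t ∈ S) ∨ (¬ tb H t ∧ t ∉ S) := b t ht
      tauto]

theorem decode2 {J S T K : Set ℕ} (k n0 : ℕ) (h1 : Red S J) (h2 : Red Sᶜ J) (h3 : Red T J)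
    (h4 : Red Tᶜ J) (h : ∀ n, n0 ≤ n → n % 2 = 0 →
      (n ∈ join K ∅ ↔ mk (n + k) (bm (join K ∅) n) (bm S (nn (n + k))) ∈ T)) :
    Red (join K Kᶜ) J := by
  obtain ⟨a, b⟩ := decode (X := join K ∅)
    (P := fun z => z.1 % 2 = 0 ∧ mk (z.1 + k) z.2 (bm S (nn (z.1 + k))) ∈ T)
    (er_and (er_re (by fun_prop)) (er_bm (Q := fun (z : ℕ × ℕ) H => mk (z.1 + k) z.2 H ∈ T)
      (n := fun z => nn (z.1 + k)) h1 h2 (by fun_prop) (h3.er (by fun_prop))))
    ((er_imp (p := fun z : ℕ × ℕ => z.1 % 2 = 0) (by fun_prop)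
      (er_bm (Q := fun z H => mk (z.1 + k) z.2 H ∈ Tᶜ) (n := fun z => nn (z.1 + k)) h1 h2
        (by fun_prop) (h4.er (by fun_prop)))).of_iff fun _ => not_and) n0
    fun n hn => by
      have e : n ∈ join K ∅ → n % 2 = 0 := fun h => h.elim And.left fun h => h.2.elim
      exact ⟨fun c => ⟨e c, (h n hn (e c)).1 c⟩, fun c => (h n hn c.1).2 c.2⟩
  exact red_join ((red_left _ _).trans a) (red_iff.2 ((b.er (f := fun x => 2 * x)
    (by fun_prop)).of_iff fun x => not_congr mem_left.symm))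

/-- One step in the choice of a point with a prescribed type. -/
noncomputable def step {Q : Type} (S : ℕ → Set Q) (n : ℕ) (q0 : Q) (b : Prop) : Q :=
  if h : ∃ q, (∀ i < n, q ∈ S i ↔ q0 ∈ S i) ∧ (q ∈ S n ↔ b) then h.choose else q0

/-- Computable sets with the same Boolean relations as a given sequence of sets. -/
theorem boolrep {Q : Type} (q0 : Q) (S : ℕ → Set Q) : ∃ I : ℕ → Set ℕ,
    (∀ n, ComputablePred fun x => x ∈ I n) ∧ (∀ x n, ∃ q, ∀ i < n, (x ∈ I i ↔ q ∈ S i)) ∧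
      ∀ q n, ∃ x, ∀ i < n, (x ∈ I i ↔ q ∈ S i) := by
  let w : ℕ → ℕ → Q := fun x n => Nat.rec q0 (fun m q => step S m q (tb x m)) n
  have hw : ∀ x n, w x (n + 1) = step S n (w x n) (tb x n) := fun _ _ => rfl
  have l1 : ∀ n q b, ∀ i < n, (step S n q b ∈ S i ↔ q ∈ S i) := fun n q b i hi => by
    unfold step
    split_ifs with h
    · exact h.choose_spec.1 i hi
    · rfl
  have l2 : ∀ x n, ∀ i < n, (w x (i + 1) ∈ S i ↔ w x n ∈ S i) := fun x n => by
    induction n with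
    | zero => simp
    | succ n ih =>
      intro i hi
      rcases Nat.lt_succ_iff_lt_or_eq.1 hi with h | rfl
      · rw [hw x n, l1 n _ _ i h, ih i h]
      · rfl
  have l3 : ∀ x m n, n ≤ m → w (x % 2 ^ m) n = w x n := fun x m n => by
    induction n with
    | zero => exact fun _ => rfl
    | succ n ih =>
      intro h
      rw [hw, hw, ih (by omega), propext (tb_mod.trans (and_iff_right (show n < m from h)))]
  refine ⟨fun n => {x | w x (n + 1) ∈ S n}, fun n => ?_, fun x n => ⟨w x n, l2 x n⟩,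
    fun q n => ⟨bm {i | q ∈ S i} n, fun i hi => (l2 _ n i hi).trans ?_⟩⟩
  · refine (show ComputablePred fun x => x % 2 ^ (n + 1) ∈
      (List.range (2 ^ (n + 1))).filter fun x => w x (n + 1) ∈ S n by fun_prop).of_eq fun x => ?_
    simp [l3 x (n + 1) (n + 1) le_rfl, Nat.mod_lt x (show 0 < 2 ^ (n + 1) by positivity)]
  · suffices h : ∀ m ≤ n, ∀ i < m, (w (bm {i | q ∈ S i} n) m ∈ S i ↔ q ∈ S i) from h n le_rfl i hi
    intro m
    induction m with
    | zero => simp
    | succ m ih =>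
      intro hm i hi
      have e : tb (bm {i | q ∈ S i} n) m ↔ q ∈ S m := tb_bm.trans (and_iff_right hm)
      rcases Nat.lt_succ_iff_lt_or_eq.1 hi with h | rfl
      · rw [hw, l1 m _ _ i h, ih (by omega) i h]
      · have hx : ∃ q', (∀ j < i, q' ∈ S j ↔ w (bm {i | q ∈ S i} n) i ∈ S j) ∧
            (q' ∈ S i ↔ tb (bm {i | q ∈ S i} n) i) :=
          ⟨q, fun j hj => (ih (by omega) j hj).symm, e.symm⟩
        rw [hw, step, dif_pos hx, hx.choose_spec.2, e]

theorem col_red {S X I I₁ I₂ C : Set ℕ} (hI : ComputablePred fun l => l ∈ I) (h : I ⊆ I₁ ∪ I₂)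
    (h1 : Red (col S X I₁) C) (h2 : Red (col S X I₂) C) : Red (col S X I) C :=
  red_iff.2 ((er_and (p := fun y => lab y ∈ I)
    (er_re (MP750S.p_comp hI (g := lab) (c_lab Computable.id)).to_re)
    (er_or (red_iff.1 h1) (red_iff.1 h2))).of_iff fun _ =>
      ⟨fun k => ⟨k.1, (h k.1).imp (⟨·, k.2⟩) (⟨·, k.2⟩)⟩,
        fun k => ⟨k.1, k.2.elim And.right And.right⟩⟩)

theorem main {A B : Set ℕ} (hAB : Red A B) (hj : ¬ Red (jump B) (jump A)) (P : Type)
    [PartialOrder P] [Countable P] : ∃ f : P → Set ℕ, (∀ x y, x ≤ y ↔ Red (f x) (f y)) ∧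
      (∀ x y s, IsLUB {x, y} s → Red (f s) (join (f x) (f y))) ∧
      ∀ x, (Red A (f x) ∧ ¬ Red (f x) A) ∧ (Red (f x) B ∧ ¬ Red B (f x)) ∧
        Red (jump B) (jump (f x)) := by
  rcases isEmpty_or_nonempty P with hP | ⟨⟨p0⟩⟩
  · exact ⟨fun _ => ∅, fun x => isEmptyElim x, fun x => isEmptyElim x, fun x => isEmptyElim x⟩
  obtain ⟨e, hS⟩ := fixpt ef_Rule A
  have hSA := red_op e A
  generalize op e A = S at hS hSA
  obtain ⟨X, hX⟩ : ∃ X, X = join (kset B) ∅ := ⟨_, rfl⟩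
  have hXB : Red X B := hX ▸ red_join (red_kset B)
    (red_iff.2 ((er_re (MP750S.r_const False)).of_iff fun _ => Iff.rfl))
  have hW : {r | Wr S X r}.Infinite := fun hf => by
    obtain ⟨n0, hn⟩ := hf.bddAbove
    refine hj (decode2 0 (n0 + 1) hSA.jump_dec.1 hSA.jump_dec.2 hSA.jump_dec.1 hSA.jump_dec.2
      fun n h1 h2 => ?_)
    rw [← hX]
    by_contra h3
    exact absurd (hn ⟨h2, h3⟩) (by omega)
  have hT : ∀ I : Set ℕ, (ComputablePred fun l => l ∈ I) → Red (col S X I) B := fun I hI =>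
    red_iff.2 (er_and (er_re (MP750S.p_comp hI (g := lab) (c_lab Computable.id)).to_re)
      (ef_InT (S := fun _ _ => S) (Y := fun _ _ => X) (y := fun y => y) Computable.id
        ((hSA.trans hAB).er (by fun_prop)) (hXB.er (by fun_prop))))
  have hone : ∀ i : ℕ, ComputablePred fun l => l ∈ ({i} : Set ℕ) := fun i =>
    show ComputablePred fun l => l = i by fun_prop
  have hsep : ∀ (i : ℕ) (I C : Set ℕ), (ComputablePred fun l => l ∈ I) → i + 1 ∉ I →
      Red (col S X {i + 1}) C → ¬ Red C (join A (col S X I)) := fun i I C hI hi h1 h2 =>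
    indep hS hW i (h1.trans (h2.trans (red_join (red_left _ _) (col_red hI
      (fun l hl => Or.inl fun (k : l = i + 1) => hi (k ▸ hl)) (red_right _ _) (red_right _ _)))))
  have : Nonempty P := ⟨p0⟩
  obtain ⟨g, hg⟩ := exists_surjective_nat P
  choose ix hix using hg
  obtain ⟨I, hI, i1, i2⟩ := boolrep p0 fun n => {y | ¬ g n ≤ y}
  let L : P → Set ℕ := fun x => {l | l = 0 ∨ (2 ≤ l ∧ l - 2 ∈ I (ix x))}
  have hL : ∀ x, ComputablePred fun l => l ∈ L x := fun x =>
    MP750S.p_or (by fun_prop) (MP750S.p_and (by fun_prop)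
      (MP750S.p_comp (hI (ix x)) (g := fun l => l - 2) (by fun_prop)))
  have hsub : ∀ x y s, (∀ q, x ≤ q → y ≤ q → s ≤ q) → L s ⊆ L x ∪ L y := fun x y s h l hl => by
    rcases hl with k | ⟨k, k'⟩
    · exact Or.inl (Or.inl k)
    · obtain ⟨q, hq⟩ := i1 (l - 2) (ix x + ix y + ix s + 1)
      have a := (hq (ix s) (by omega)).1 k'
      have b := hq (ix x) (by omega)
      have c := hq (ix y) (by omega)
      simp only [Set.mem_ofPred_eq, hix] at a b c
      by_cases d : x ≤ q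
      · exact Or.inr (Or.inr ⟨k, c.2 fun d' => a (h q d d')⟩)
      · exact Or.inl (Or.inr ⟨k, b.2 d⟩)
  have hjf : ∀ x, Red (jump B) (jump (join A (col S X (L x)))) := fun x => by
    have a := (hSA.trans (red_left A (col S X (L x)))).jump_dec
    have b := (red_right A (col S X (L x))).jump_dec
    refine decode2 1 0 a.1 a.2 b.1 b.2 fun n _ h2 => ?_
    have e : n + 1 ∉ X := hX ▸ fun h => h.elim (fun h => by have := h.1; omega) fun h => h.2
    have e' : lab (mk (n + 1) (bm X n) (bm S (nn (n + 1)))) = 0 :=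
      if_pos (by rw [ps_mk]; omega)
    rw [← hX, col, Set.mem_ofPred_eq, e', and_iff_right (show 0 ∈ L x from Or.inl rfl), inT_true
      ((bm_lt _ _).trans (Nat.pow_lt_pow_right one_lt_two (Nat.lt_succ_self n)))]
    simp only [tb_bm]
    refine ⟨fun h => ⟨fun _ _ k => k.2, n, by omega, fun k => lt_irrefl _ k.1, h⟩, ?_⟩
    rintro ⟨-, d, d1, d2, d3⟩
    obtain rfl | rfl : d = n ∨ d = n + 1 := by
      have : ¬ d < n := fun k => d2 ⟨k, d3⟩
      omega
    · exact d3
    · exact absurd d3 e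
  refine ⟨fun x => join A (col S X (L x)), fun x y => ⟨fun h => red_join (red_left _ _)
    (col_red (hL x) (hsub y y x fun q k _ => h.trans k) (red_right _ _) (red_right _ _)),
    fun h => ?_⟩, fun x y s h => red_join ((red_left _ _).trans (red_left _ _))
      (col_red (hL s) (hsub x y s fun q a b => h.2 ?_) ((red_right _ _).trans (red_left _ _))
        ((red_right _ _).trans (red_right _ _))),
    fun x => ⟨⟨red_left _ _, fun h => hj ((hjf x).trans h.jump_mono)⟩,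
      ⟨red_join hAB (hT _ (hL x)), hsep 0 _ _ (hL x) ?_ (hT _ (hone _))⟩, hjf x⟩⟩
  · by_contra hn
    obtain ⟨l, hl⟩ := i2 y (ix x + ix y + 1)
    have a := hl (ix x) (by omega)
    have b := hl (ix y) (by omega)
    simp only [Set.mem_ofPred_eq, hix] at a b
    refine hsep (l + 1) _ _ (hL y) ?_ (col_red (hone _) ?_ (red_right _ _) (red_right _ _)) h
    · rintro (k | k)
      · omega
      · exact b.1 k.2 le_rfl
    · rintro _ rfl
      exact Or.inl (Or.inr ⟨by omega, a.2 hn⟩)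
  · rintro _ (rfl | rfl)
    · exact a
    · exact b
  · rintro (k | k)
    · omega
    · have := k.1
      omega

end Pool.Agent.MP_750bb3_lc.J
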