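import Pool.Agent.MP_750bb3_lc.J.Basic

/-! Markers with histories. -/

set_option autoImplicit false

namespace Pool.Agent.MP_750bb3_lc.J

open MP750S (Ball Bex Lall lset)
open Classical

/-- Bit `j` of `m` is set. -/
def tb (m j : ℕ) : Prop := m.testBit j = true

/-- The bit mask of `S` below `n`. -/
noncomputable def bm (S : Set ℕ) (n : ℕ) : ℕ := Nat.ofBits fun i : Fin n => decide ((i : ℕ) ∈ S)

theorem bm_lt (S : Set ℕ) (n : ℕ) : bm S n < 2 ^ n := Nat.ofBits_lt_two_pow _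

theorem tb_bm {S : Set ℕ} {n j : ℕ} : tb (bm S n) j ↔ j < n ∧ j ∈ S := by
  rw [tb, bm, Nat.testBit_ofBits]
  split_ifs with h <;> simp [h]

theorem tb_lt {m n j : ℕ} (h : m < 2 ^ n) (hj : tb m j) : j < n := by
  by_contra hn
  have := Nat.testBit_lt_two_pow (h.trans_le (Nat.pow_le_pow_right two_pos (not_lt.1 hn)))
  rw [tb, this] at hj
  exact Bool.false_ne_true hj

theorem eq_bm {S : Set ℕ} {m n : ℕ} (h : m < 2 ^ n) (hb : ∀ j < n, tb m j ↔ j ∈ S) :
    m = bm S n := by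
  refine Nat.eq_of_testBit_eq fun j => Bool.eq_iff_iff.2 ?_
  show tb m j ↔ tb (bm S n) j
  rw [tb_bm]
  exact ⟨fun hj => ⟨tb_lt h hj, (hb j (tb_lt h hj)).1 hj⟩, fun hj => (hb j hj.1).2 hj.2⟩

theorem tb_mod {m n j : ℕ} : tb (m % 2 ^ n) j ↔ j < n ∧ tb m j := by simp [tb]

theorem bm_mod (S : Set ℕ) {n m : ℕ} (h : m ≤ n) : bm S n % 2 ^ m = bm S m :=
  eq_bm (Nat.mod_lt _ (by positivity)) fun j hj => by
    rw [tb_mod, tb_bm]
    exact ⟨fun h => h.2.2, fun h' => ⟨hj, by omega, h'⟩⟩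

/-- Bound for the codes of the markers of the levels below `n`. -/
def nn (n : ℕ) : ℕ := Nat.rec 0 (fun k s => Nat.pair k (Nat.pair (2 ^ k) (2 ^ s))) n

/-- Code of a marker. -/
def mk (n D H : ℕ) : ℕ := Nat.pair n (Nat.pair D H)

/-- Level of a marker. -/
def ps (y : ℕ) : ℕ := y.unpair.1

/-- Guess of a marker about the coded set. -/
def dd (y : ℕ) : ℕ := y.unpair.2.unpair.1

/-- History of a marker. -/
def hh (y : ℕ) : ℕ := y.unpair.2.unpair.2

@[simp] theorem ps_mk (n D H : ℕ) : ps (mk n D H) = n := by simp [ps, mk]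
@[simp] theorem dd_mk (n D H : ℕ) : dd (mk n D H) = D := by simp [dd, mk]
@[simp] theorem hh_mk (n D H : ℕ) : hh (mk n D H) = H := by simp [hh, mk]
theorem mk_eta (y : ℕ) : mk (ps y) (dd y) (hh y) = y := by simp [ps, dd, hh, mk]

theorem nn_mono : Monotone nn := monotone_nat_of_le_succ fun n =>
  (Nat.lt_two_pow_self (n := nn n)).le.trans
    ((Nat.right_le_pair _ _).trans (Nat.right_le_pair _ _))

theorem mk_lt {n D H m : ℕ} (hD : D < 2 ^ n) (hH : H < 2 ^ nn n) (h : n < m) : mk n D H < nn m :=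
  (Nat.pair_lt_pair_right n ((Nat.pair_lt_pair_left H hD).trans
    (Nat.pair_lt_pair_right _ hH))).trans_le (nn_mono h)

/-- Number of wrong predictions below level `n`, as seen by the guesses `D` and `H`. -/
noncomputable def cnt (D H n : ℕ) : ℕ :=
  Nat.rec 0 (fun r s => if r % 2 = 0 ∧ ¬ (tb D r ↔ tb H (mk r (D % 2 ^ r) (H % 2 ^ nn r)))
    then s + 1 else s) n

/-- The operator tested by a marker. -/
noncomputable def ee (y : ℕ) : ℕ := (cnt (dd y) (hh y) (ps y)).unpair.1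

/-- The column of a marker. -/
noncomputable def lab (y : ℕ) : ℕ :=
  if ps y % 2 = 1 then 0 else (cnt (dd y) (hh y) (ps y)).unpair.2 + 1

section comp
variable {α : Type} [Primcodable α] {f g h : α → ℕ}

@[fun_prop] theorem c_pow (hf : Computable f) : Computable fun a => 2 ^ f a :=
  (Primrec₂.unpaired'.1 Nat.Primrec.pow).to_comp.comp (Computable.const 2) hf

@[fun_prop] theorem p_tb (hf : Computable f) (hg : Computable g) :
    ComputablePred fun a => tb (f a) (g a) :=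
  (show ComputablePred fun a => f a / 2 ^ g a % 2 = 1 by fun_prop).of_eq fun a => by
    simp [tb, Nat.testBit_eq_decide_div_mod_eq]

@[fun_prop] theorem r_tb (hf : Computable f) (hg : Computable g) :
    REPred fun a => tb (f a) (g a) := (p_tb hf hg).to_re

@[fun_prop] theorem c_nn (hf : Computable f) : Computable fun a => nn (f a) :=
  MP750S.c_rec (b := fun _ => 0) (h := fun _ k s => Nat.pair k (Nat.pair (2 ^ k) (2 ^ s))) hf
    (by fun_prop) (by fun_prop)

@[fun_prop] theorem c_mk (hf : Computable f) (hg : Computable g) (hh : Computable h) :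
    Computable fun a => mk (f a) (g a) (h a) := by unfold mk; fun_prop
@[fun_prop] theorem c_ps (hf : Computable f) : Computable fun a => ps (f a) := by
  unfold ps; fun_prop
@[fun_prop] theorem c_dd (hf : Computable f) : Computable fun a => dd (f a) := by
  unfold dd; fun_prop
@[fun_prop] theorem c_hh (hf : Computable f) : Computable fun a => hh (f a) := by
  unfold hh; fun_prop

@[fun_prop] theorem c_cnt (hf : Computable f) (hg : Computable g) (hh : Computable h) :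
    Computable fun a => cnt (f a) (g a) (h a) :=
  MP750S.c_rec (b := fun _ => 0) (h := fun a r s => if r % 2 = 0 ∧
    ¬ (tb (f a) r ↔ tb (g a) (mk r (f a % 2 ^ r) (g a % 2 ^ nn r))) then s + 1 else s) hh
    (by fun_prop) (by fun_prop)

@[fun_prop] theorem c_ee (hf : Computable f) : Computable fun a => ee (f a) := by
  unfold ee; fun_prop
@[fun_prop] theorem c_lab (hf : Computable f) : Computable fun a => lab (f a) := by
  unfold lab; fun_prop

end comp

/-- The marker `y` is enumerated, given the satisfied tests `S` and the coded set `Y`. -/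
def InT (S Y : Set ℕ) (y : ℕ) : Prop :=
  (dd y < 2 ^ ps y ∧ hh y < 2 ^ nn (ps y)) ∧ (Ball (nn (ps y)) fun t => tb (hh y) t → t ∈ S) ∧
    ((Bex (nn (ps y)) fun t => ¬ tb (hh y) t ∧ t ∈ S) ∨
      ((Ball (ps y) fun d => tb (dd y) d → d ∈ Y) ∧ Bex (ps y + 1) fun d => ¬ tb (dd y) d ∧ d ∈ Y))

theorem ef_InT {α ι : Type} [Primcodable α] {Z : ι → Set ℕ} {S Y : α → ι → Set ℕ} {y : α → ℕ}
    (hy : Computable y) (hS : EF Z fun (z : α × ℕ) i => z.2 ∈ S z.1 i)
    (hY : EF Z fun (z : α × ℕ) i => z.2 ∈ Y z.1 i) : EF Z fun a i => InT (S a i) (Y a i) (y a) :=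
  ef_and (ef_re (by fun_prop)) (ef_and (ef_ball (by fun_prop) (ef_imp (by fun_prop) hS))
    (ef_or (ef_bex (by fun_prop) (ef_and (ef_re (by fun_prop)) hS))
      (ef_and (ef_ball (by fun_prop) (ef_imp (by fun_prop) hY))
        (ef_bex (by fun_prop) (ef_and (ef_re (by fun_prop)) hY)))))

theorem InT.mono {S Y Y' : Set ℕ} {y : ℕ} (h : InT S Y y) (hY : Y ⊆ Y') : InT S Y' y :=
  ⟨h.1, h.2.1, h.2.2.imp_right fun ⟨a, d, b, c, e⟩ =>
    ⟨fun d hd ht => hY (a d hd ht), d, b, c, hY e⟩⟩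

/-- With the correct history a marker only looks at the coded set. -/
theorem inT_true {S Y : Set ℕ} {n D : ℕ} (hD : D < 2 ^ n) : InT S Y (mk n D (bm S (nn n))) ↔
    (∀ d < n, tb D d → d ∈ Y) ∧ ∃ d < n + 1, ¬ tb D d ∧ d ∈ Y := by
  simp only [InT, ps_mk, dd_mk, hh_mk, Ball, Bex, tb_bm]
  exact ⟨fun h => h.2.2.resolve_left fun ⟨t, a, b, c⟩ => b ⟨a, c⟩,
    fun h => ⟨⟨hD, bm_lt _ _⟩, fun t _ ht => ht.2, Or.inr h⟩⟩

/-- The guess of `y` together with all numbers from the level of `y` on. -/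
def big (y : ℕ) : Set ℕ := {d | tb (dd y) d ∨ ps y ≤ d}

/-- The rule for the test of the marker `y`. -/
def Rule (y : ℕ) (i : Set ℕ × Set ℕ) : Prop :=
  ∃ E : List ℕ, Wd (ee y) y E ∧ Lall E fun z => (z % 2 = 0 ∧ z / 2 ∈ i.1) ∨
    ((z % 2 = 1 ∧ lab (z / 2) ≠ lab y ∧ (ps y < ps (z / 2) → ¬ tb (hh (z / 2)) y)) ∧
      InT i.2 (big y) (z / 2))

theorem ef_Rule : EF (fun i : Set ℕ × Set ℕ => join i.1 i.2) Rule := by
  refine ef_ex (ef_and (ef_re (by fun_prop)) (ef_lall (by fun_prop) (ef_or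
    (ef_and (ef_re (by fun_prop)) ?_) (ef_and (ef_re (by fun_prop))
      (ef_InT (S := fun _ (i : Set ℕ × Set ℕ) => i.2)
        (Y := fun (z : (ℕ × List ℕ) × ℕ) _ => big z.1.1) (y := fun z => z.2 / 2)
        (by fun_prop) ?_ (ef_re ?_))))))
  · exact (ef_mem (f := fun z : (ℕ × List ℕ) × ℕ => 2 * (z.2 / 2)) (by fun_prop)).of_iff
      fun _ _ => mem_left.symm
  · exact (ef_mem (f := fun z : ((ℕ × List ℕ) × ℕ) × ℕ => 2 * z.2 + 1) (by fun_prop)).of_iff
      fun _ _ => mem_right.symm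
  · show REPred fun z : ((ℕ × List ℕ) × ℕ) × ℕ => tb (dd z.1.1.1) z.2 ∨ ps z.1.1.1 ≤ z.2
    fun_prop

/-- The markers with column in `I`. -/
def col (S X I : Set ℕ) : Set ℕ := {y | lab y ∈ I ∧ InT S X y}

/-- The true marker of level `n`. -/
noncomputable def ym (S X : Set ℕ) (n : ℕ) : ℕ := mk n (bm X n) (bm S (nn n))

theorem inT_ym {S X : Set ℕ} {n : ℕ} : InT S X (ym S X n) ↔ n ∈ X := by
  rw [ym, inT_true (bm_lt _ _)]
  simp only [tb_bm]
  constructor
  · rintro ⟨-, d, h1, h2, h3⟩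
    rcases Nat.lt_succ_iff_lt_or_eq.1 h1 with h | rfl
    · exact absurd ⟨h, h3⟩ h2
    · exact h3
  · exact fun h => ⟨fun _ _ h => h.2, n, Nat.lt_succ_self n, fun h => lt_irrefl _ h.1, h⟩

theorem test_ym {A S X : Set ℕ} (hS : ∀ y, y ∈ S ↔ Rule y (A, S)) (n : ℕ) :
    ym S X n ∈ op (ee (ym S X n)) (join A (col S X {lab (ym S X n)}ᶜ)) ↔ ym S X n ∈ S := by
  have hp : ps (ym S X n) = n := ps_mk _ _ _
  have hb : ∀ d, d ∈ big (ym S X n) ↔ (d < n ∧ d ∈ X) ∨ n ≤ d := fun d => by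
    simp only [big, ym, dd_mk, ps_mk, tb_bm, Set.mem_ofPred_eq]
  have hlt : ∀ m, n < m → ym S X n < nn m := fun m => mk_lt (bm_lt _ _) (bm_lt _ _)
  constructor
  · rintro ⟨E, h1, h2⟩
    by_contra hn
    refine hn ((hS _).2 ⟨E, h2, fun z hz => (h1 z hz).imp_right fun ⟨a, b, c⟩ =>
      ⟨⟨a, b, fun hl ht => hn (c.2.1 _ (hlt _ (hp ▸ hl)) ht)⟩, c.mono fun d hd => ?_⟩⟩)
    rw [hb]
    exact (lt_or_ge d n).imp_left fun h => ⟨h, hd⟩
  · intro h
    obtain ⟨E, h2, h1⟩ := (hS _).1 h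
    refine ⟨E, fun z hz => (h1 z hz).imp_right fun ⟨⟨a, b, c⟩, e⟩ => ⟨a, b, e.1, e.2.1, ?_⟩, h2⟩
    generalize z / 2 = w at b c e
    by_cases hl : n < ps w
    · exact Or.inl ⟨_, hlt _ hl, c (hp.symm ▸ hl), h⟩
    by_cases hw : Bex (nn (ps w)) fun t => ¬ tb (hh w) t ∧ t ∈ S
    · exact Or.inl hw
    obtain ⟨f, d, d1, d2, d3⟩ := e.2.2.resolve_left hw
    have f' : ∀ d < ps w, tb (dd w) d → d ∈ X := fun d hd ht =>
      (((hb d).1 (f d hd ht)).resolve_right (by omega)).2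
    refine Or.inr ⟨f', ?_⟩
    by_contra hc
    have e1 : ps w = n := by
      rcases (hb d).1 d3 with k | k
      · exact absurd ⟨d, d1, d2, k.2⟩ hc
      · omega
    have e2 : dd w = bm X n := eq_bm (e1 ▸ e.1.1) fun j hj => ⟨f' j (e1 ▸ hj), fun k => by
      by_contra k'
      exact hc ⟨j, by omega, k', k⟩⟩
    have e3 : hh w = bm S (nn n) := eq_bm (e1 ▸ e.1.2) fun j hj =>
      ⟨e.2.1 j (e1 ▸ hj), fun k => by
        by_contra k'
        exact hw ⟨j, e1 ▸ hj, k', k⟩⟩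
    exact b (by rw [← mk_eta w, e1, e2, e3, ym])

/-- Wrong prediction at level `r`. -/
def Wr (S X : Set ℕ) (r : ℕ) : Prop := r % 2 = 0 ∧ ¬ (r ∈ X ↔ ym S X r ∈ S)

theorem cnt_true (S X : Set ℕ) {n : ℕ} (m : ℕ) (h : m ≤ n) :
    cnt (bm X n) (bm S (nn n)) m = Nat.count (Wr S X) m := by
  induction m with
  | zero => rfl
  | succ m ih =>
    have e : (m % 2 = 0 ∧ ¬ (tb (bm X n) m ↔ tb (bm S (nn n))
        (mk m (bm X n % 2 ^ m) (bm S (nn n) % 2 ^ nn m)))) ↔ Wr S X m := by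
      rw [bm_mod X (by omega), bm_mod S (nn_mono (by omega)), tb_bm, tb_bm, Wr, ym,
        and_iff_right (show m < n from h), and_iff_right (mk_lt (bm_lt _ _) (bm_lt _ _) h)]
    rw [Nat.count_succ, ← ih (by omega)]
    show (if _ then _ else _) = _
    by_cases k : Wr S X m
    · rw [if_pos (e.2 k), if_pos k]
      rfl
    · rw [if_neg (fun k' => k (e.1 k')), if_neg k]
      rfl

/-- Infinitely many wrong predictions make the columns independent over `A`. -/
theorem indep {A S X : Set ℕ} (hS : ∀ y, y ∈ S ↔ Rule y (A, S)) (hW : {r | Wr S X r}.Infinite)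
    (i : ℕ) : ¬ Red (col S X {i + 1}) (join A (col S X {i + 1}ᶜ)) := by
  intro h
  obtain ⟨e, he⟩ := h.index
  obtain ⟨n, h1, h2⟩ : ∃ n, Wr S X n ∧ Nat.count (Wr S X) n = Nat.pair e i :=
    ⟨_, Nat.nth_mem_of_infinite hW _, Nat.count_nth_of_infinite hW _⟩
  rw [← cnt_true S X n le_rfl] at h2
  have e1 : ee (ym S X n) = e := by simp [ee, ym, h2]
  have e2 : lab (ym S X n) = i + 1 := by simp [lab, ym, h2, h1.1]
  have k := test_ym (X := X) hS n
  rw [e1, e2, ← he] at k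
  exact h1.2 (Iff.trans ⟨fun h => ⟨e2, inT_ym.2 h⟩, fun h => inT_ym.1 h.2⟩ k)

end Pool.Agent.MP_750bb3_lc.J
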