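import Pool.Agent.MP_750bb3_lc.J.Forc

/-! A binary tree of guesses about a predicate below the jump of the empty set. -/

set_option autoImplicit false

namespace Pool.Agent.MP_750bb3_lc.J

open MP750S (Ball Bex Lall lset)
open Classical Filter

/-- Number of zero bits of a node. -/
noncomputable def zz (ν : ℕ × ℕ) : ℕ :=
  Nat.rec 0 (fun j s => if tb ν.2 j then s else s + 1) ν.1

/-- Number of non-elements of `G` below `n`. -/
noncomputable def cn (G : Set ℕ) (n : ℕ) : ℕ := Nat.count (fun j => j ∉ G) n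

theorem Ext.zz {ν : ℕ × ℕ} {G : Set ℕ} (h : Ext ν G) : zz ν = cn G ν.1 := by
  obtain ⟨n, H⟩ := ν
  induction n with
  | zero => rfl
  | succ n ih =>
    have h1 : J.zz (n, H) = cn G n := ih fun j hj => h j (Nat.lt_succ_of_lt hj)
    have h2 : tb H n ↔ n ∈ G := h n (Nat.lt_succ_self n)
    show (if tb H n then J.zz (n, H) else J.zz (n, H) + 1) = Nat.count (fun j => j ∉ G) (n + 1)
    rw [Nat.count_succ, h1, cn]
    by_cases k : n ∈ G <;> simp [k, h2]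

theorem cn_const {G : Set ℕ} {m n : ℕ} (h : ∀ j, m ≤ j → j ∈ G) (k : m ≤ n) : cn G n = cn G m := by
  induction k with
  | refl => rfl
  | step k ih => rw [← ih, cn, Nat.count_succ, if_neg (not_not.2 (h _ k))]; rfl

@[fun_prop] theorem c_zz {α : Type} [Primcodable α] {ν : α → ℕ × ℕ} (h : Computable ν) :
    Computable fun a => zz (ν a) :=
  MP750S.c_rec (n := fun a => (ν a).1) (b := fun _ => 0)
    (h := fun a j s => if tb (ν a).2 j then s else s + 1) (by fun_prop) (by fun_prop) (by fun_prop)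

/-- The node `μ` is to the left of the path `G`, or it is on `G` and codes an element of `Y`. -/
def PP (G Y : Set ℕ) (μ : ℕ × ℕ) : Prop :=
  (Bex μ.1 fun j => ¬ tb μ.2 j ∧ j ∈ G ∧ Ball j fun k => tb μ.2 k → k ∈ G) ∨
    ((Ball μ.1 fun k => tb μ.2 k → k ∈ G) ∧ μ.1.unpair.1 ∈ Y)

theorem er_PP {α : Type} [Primcodable α] {Z : Set ℕ} {G Y : α → Set ℕ} {μ : α → ℕ × ℕ}
    (hμ : Computable μ) (hG : ER Z fun z : α × ℕ => z.2 ∈ G z.1)
    (hY : ER Z fun a => (μ a).1.unpair.1 ∈ Y a) : ER Z fun a => PP (G a) (Y a) (μ a) :=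
  er_or (ef_bex (p := fun a j _ => ¬ tb (μ a).2 j ∧ j ∈ G a ∧ Ball j fun k => tb (μ a).2 k →
      k ∈ G a) (by fun_prop) (er_and (er_re (by fun_prop)) (er_and hG (er_ball (by fun_prop)
        (er_imp (by fun_prop) (er_comp (g := fun z : (α × ℕ) × ℕ => (z.1.1, z.2)) hG
          (by fun_prop)))))))
    (er_and (er_ball (by fun_prop) (er_imp (by fun_prop) hG)) hY)

theorem PP.tr {G Y G' Y' : Set ℕ} {μ : ℕ × ℕ} (h : PP G Y μ)
    (hG : ∀ j < μ.1, (∀ k < j, tb μ.2 k ↔ k ∈ G) → j ∈ G → j ∈ G')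
    (hY : Ext μ G → μ.1.unpair.1 ∈ Y → μ.1.unpair.1 ∈ Y') : PP G' Y' μ := by
  by_cases e : Ext μ G
  · rcases h with ⟨j, a, b, c, -⟩ | ⟨-, b⟩
    · exact absurd ((e j a).2 c) b
    · exact Or.inr ⟨fun k hk t => hG k hk (fun l hl => e l (hl.trans hk)) ((e k hk).1 t), hY e b⟩
  · have ex : ∃ j, j < μ.1 ∧ ¬ (tb μ.2 j ↔ j ∈ G) := by simpa [Ext, not_forall] using e
    obtain ⟨a, b⟩ := Nat.find_spec ex
    have c : ∀ k < Nat.find ex, tb μ.2 k ↔ k ∈ G := fun k hk =>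
      not_not.1 fun t => Nat.find_min ex hk ⟨hk.trans a, t⟩
    have d : tb μ.2 (Nat.find ex) → Nat.find ex ∈ G := fun t => by
      rcases h with ⟨j, -, p, q, r⟩ | ⟨p, -⟩
      · rcases lt_trichotomy j (Nat.find ex) with s | s | s
        · exact absurd ((c j s).2 q) p
        · exact s ▸ q
        · exact r _ s t
      · exact p _ a t
    exact Or.inl ⟨_, a, by tauto, hG _ a c (by tauto), fun k hk t =>
      hG k (hk.trans a) (fun l hl => c l (hl.trans hk)) ((c k hk).1 t)⟩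

theorem PP.mono {G Y G' Y' : Set ℕ} {μ : ℕ × ℕ} (h : PP G Y μ) (hG : G ⊆ G') (hY : Y ⊆ Y') :
    PP G' Y' μ := h.tr (fun _ _ _ a => hG a) fun _ a => hY a

theorem Ext.pp {G Y : Set ℕ} {μ : ℕ × ℕ} (e : Ext μ G) : PP G Y μ ↔ μ.1.unpair.1 ∈ Y :=
  ⟨fun h => h.elim (fun ⟨j, a, b, c, _⟩ => absurd ((e j a).2 c) b) And.right,
    fun h => Or.inr ⟨fun k hk => (e k hk).1, h⟩⟩

/-- The path defined by the rule `Φ`. -/
def pth (Φ : ℕ × ℕ → Prop) (j : ℕ) : Prop :=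
  Φ (j, Nat.ofBits fun i : Fin j => decide (pth Φ i))
termination_by j
decreasing_by exact i.2

theorem tree {S : ℕ × ℕ → Prop} (hS : ER (jump ∅) S) : ∃ F : Set ℕ,
    (∀ Y, Red {μ | PP F Y μ.unpair} Y) ∧ (∀ j ∉ F, ∃ ν, Ext ν F ∧ zz ν = cn F j ∧ S ν) ∧
      ∀ ν, Ext ν F → (∀ j, ν.1 ≤ j → j ∈ F) → ¬ S ν := by
  obtain ⟨Q, hQ, h⟩ := er_nf hS
  let d : ℕ → (ℕ × ℕ) × List ℕ × ℕ := fun n => Denumerable.ofNat _ n.unpair.1
  have hd : Computable d := by fun_prop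
  let Φ : ℕ × ℕ → Prop := fun ν => (Le ν (d ν.1).1 ∧ zz (d ν.1).1 = zz ν) → Q (d ν.1)
  have hΦ : REPred Φ := by fun_prop
  obtain ⟨F, hF⟩ : ∃ F : Set ℕ, ∀ j, j ∈ F ↔ Φ (j, bm F j) :=
    ⟨{j | pth Φ j}, fun j => by rw [Set.mem_ofPred_eq, pth]; rfl⟩
  have key : ∀ H j, (∀ k < j, tb H k ↔ k ∈ F) → (j ∈ F ↔ Φ (j, H % 2 ^ j)) := fun H j a => by
    rw [hF, eq_bm (S := F) (Nat.mod_lt H (by positivity)) fun k hk =>
      (tb_mod.trans (and_iff_right hk)).trans (a k hk)]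
  refine ⟨F, fun Y => red_iff.2 ((er_PP (G := fun μ : ℕ => {j | Φ (j, μ.unpair.2 % 2 ^ j)})
    (Y := fun _ => Y) (μ := fun μ => μ.unpair) (by fun_prop) (er_re ?_)
      ((Red.refl Y).er (by fun_prop))).of_iff fun μ => ⟨fun a => a.tr ?_ fun _ b => b,
        fun a => a.tr ?_ fun _ b => b⟩), fun j hj => ?_, fun ν a b c => ?_⟩
  · exact MP750S.r_comp (g := fun z : ℕ × ℕ => (z.2, z.1.unpair.2 % 2 ^ z.2)) hΦ (by fun_prop)
  · exact fun j _ b => (key _ j b).1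
  · refine fun j _ b => (key _ j fun k => ?_).2
    induction k using Nat.strong_induction_on with
    | _ k ih => exact fun hk => (b k hk).trans (key _ k fun l hl => ih l hl (hl.trans hk)).symm
  · obtain ⟨⟨a, b⟩, c⟩ := Classical.not_imp.1 (mt (hF j).2 hj)
    exact ⟨(d j).1, fun k hk => (a.2 k hk).symm.trans (ext_bm F j k (hk.trans_le a.1)),
      b.trans (ext_bm F j).zz, (h _).2 ⟨_, c⟩⟩
  · obtain ⟨w, hw⟩ := (h ν).1 c
    obtain ⟨m, hm⟩ : ∃ m, Denumerable.ofNat ((ℕ × ℕ) × List ℕ × ℕ) m = (ν, w) :=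
      ⟨_, Denumerable.ofNat_encode _⟩
    let n := Nat.pair m ν.1
    have e : d n = (ν, w) := by simp only [d, n, Nat.unpair_pair, hm]
    have k : ν.1 ≤ n := Nat.right_le_pair _ _
    have := (hF n).1 (b n k)
    simp only [Φ, e] at this
    exact hw (this ⟨(ext_bm F n).le a k, by rw [a.zz, (ext_bm F n).zz, cn_const b k]⟩)

end Pool.Agent.MP_750bb3_lc.J
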